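import Pool.Agent.Helper11K9.KR.Gen

/-!
Relations between the values of monomials in functions which generate, and images of varieties with
such functions.
-/

set_option autoImplicit false
set_option linter.overlappingInstances false
set_option linter.unusedSectionVars false

open FF IntermediateField

namespace Pool.Agent.Helper11K9.KR

open Pool.Agent.W603.LV Pool.Agent.W602.RG
open Pool.Agent.W602.GT (Divisorial RegAt IsPluri KodGe LogSec)
open Pool.Agent.R882.Over (GenusZero)
open Pool.Agent.Helper11K9.PC Pool.Agent.Helper11K9.MT Pool.Agent.Helper11K9.OD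
  Pool.Agent.Helper11K9.PR

/-- **No relation.** There is no relation between the values of the monomials of multidegree at most
`m` at `1 + ∑ m i` points or less, if the points have distinct coordinates. -/
theorem no_rel_pol {α ι Ω : Type} [Field Ω] [DecidableEq α] [DecidableEq ι] (m : α → ℕ)
    (τ : α → ι → Ω) (S : Finset α) :
    ∀ (U : Finset ι) (_ : U.Nonempty) (_ : ∀ i ∈ S, Set.InjOn (τ i) U) (C : ι → Ω)
      (_ : ∀ s ∈ U, C s ≠ 0)
      (_ : ∀ e : α → ℕ, (∀ i, e i ≤ m i) → ∑ s ∈ U, C s * ∏ i ∈ S, τ i s ^ e i = 0),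
      U.card ≤ ∑ i ∈ S, m i + 1 → False := by
  induction S using Finset.induction_on with
  | empty =>
    intro U hU _ C hC hR hcard
    rw [Finset.sum_empty, zero_add] at hcard
    obtain ⟨s, hs⟩ := Finset.card_eq_one.1 (le_antisymm hcard hU.card_pos)
    have h1 := hR (fun _ => 0) fun _ => Nat.zero_le _
    rw [hs, Finset.sum_singleton, Finset.prod_empty, mul_one] at h1
    exact hC s (by rw [hs]; exact Finset.mem_singleton_self s) h1
  | insert a S haS ih =>
    intro U hU hinj C hC hR hcard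
    rw [Finset.sum_insert haS] at hcard
    obtain ⟨B, hBU, hB⟩ := Finset.exists_subset_card_eq (s := U)
      (n := U.card - (∑ i ∈ S, m i + 1)) (Nat.sub_le _ _)
    obtain ⟨P, hP⟩ : ∃ P : Polynomial Ω, P = ∏ b ∈ B, (Polynomial.X - Polynomial.C (τ a b)) :=
      ⟨_, rfl⟩
    have hdeg : P.natDegree = B.card := by
      rw [hP, Polynomial.natDegree_prod_of_monic _ _ fun b _ => Polynomial.monic_X_sub_C _]
      simp
    have hPm : P.natDegree ≤ m a := by
      rw [hdeg, hB]
      omega
    have hne : (U \ B).Nonempty := by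
      rw [← Finset.card_pos, Finset.card_sdiff_of_subset hBU]
      have := hU.card_pos
      omega
    refine ih (U \ B) hne (fun i hi => (hinj i (Finset.mem_insert_of_mem hi)).mono (by
        rw [Finset.coe_sdiff]
        exact Set.sdiff_subset)) (fun s => C s * P.eval (τ a s)) (fun s hs => ?_)
      (fun e he => ?_) ?_
    · rw [Finset.mem_sdiff] at hs
      refine mul_ne_zero (hC s hs.1) ?_
      rw [hP, Polynomial.eval_prod]
      refine Finset.prod_ne_zero_iff.2 fun b hb => ?_
      rw [Polynomial.eval_sub, Polynomial.eval_X, Polynomial.eval_C, sub_ne_zero]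
      intro h
      have h1 := hinj a (Finset.mem_insert_self a S) hs.1 (hBU hb) h
      exact hs.2 (h1 ▸ hb)
    · have h1 : ∀ j ≤ m a, ∑ s ∈ U, C s * (τ a s ^ j * ∏ i ∈ S, τ i s ^ e i) = 0 := by
        intro j hj
        have h2 := hR (Function.update e a j) fun i => by
          by_cases hi : i = a
          · subst hi
            rwa [Function.update_self]
          · rw [Function.update_of_ne hi]
            exact he i
        rw [← h2]
        refine Finset.sum_congr rfl fun s _ => ?_
        rw [Finset.prod_insert haS, Function.update_self]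
        congr 2
        refine Finset.prod_congr rfl fun i hi => ?_
        rw [Function.update_of_ne fun h => haS (by rw [← h]; exact hi)]
      have h2 : ∑ s ∈ U, C s * P.eval (τ a s) * ∏ i ∈ S, τ i s ^ e i = 0 := by
        have h3 : ∀ s, C s * P.eval (τ a s) * ∏ i ∈ S, τ i s ^ e i =
            ∑ j ∈ Finset.range (m a + 1), P.coeff j *
              (C s * (τ a s ^ j * ∏ i ∈ S, τ i s ^ e i)) := by
          intro s
          rw [Polynomial.eval_eq_sum_range' (Nat.lt_succ_of_le hPm), Finset.mul_sum,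
            Finset.sum_mul]
          refine Finset.sum_congr rfl fun j _ => ?_
          ring
        simp only [h3]
        rw [Finset.sum_comm]
        refine Finset.sum_eq_zero fun j hj => ?_
        rw [← Finset.mul_sum, h1 j (Nat.lt_succ_iff.1 (Finset.mem_range.1 hj)), mul_zero]
      rw [← Finset.sum_sdiff hBU, Finset.sum_eq_zero (s := B) (fun s hs => ?_), add_zero] at h2
      · exact h2
      · have h4 : P.eval (τ a s) = 0 := by
          rw [hP, Polynomial.eval_prod]
          refine Finset.prod_eq_zero hs ?_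
          rw [Polynomial.eval_sub, Polynomial.eval_X, Polynomial.eval_C, sub_self]
        rw [h4, mul_zero, zero_mul]
    · rw [Finset.card_sdiff_of_subset hBU, hB]
      omega

section

variable {K : Type} [Field K] [Algebra ℂ K] {L : IntermediateField ℂ K} [FiniteDimensional L K]

/-- an embedding over `L` is determined by the value at a primitive element -/
theorem emb_eq_prim {t : K} (ht : IntermediateField.adjoin L {t} = ⊤)
    {σ σ' : K →ₐ[L] AlgebraicClosure K} (h : σ t = σ' t) : σ = σ' := by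
  have hL0 : CharZero L := charZero_of_injective_algebraMap (algebraMap ℂ L).injective
  exact (Field.primitive_element_iff_algHom_eq_of_eval' L (AlgebraicClosure K)
    (fun x => IsAlgClosed.splits _) t).1 ht h

/-- **The relation**, for arbitrary elements. -/
theorem exists_rel' (N : IntermediateField ℂ L) {J : K} (hJ : J ≠ 0) {X : Type} (v : X → K)
    {x0 : X} (hT0 : Algebra.trace L K (J * v x0) ≠ 0)
    (hN : ∀ x, Algebra.trace L K (J * v x) / Algebra.trace L K (J * v x0) ∈ N) :
    ∃ (Ω : Type) (_ : Field Ω) (_ : Algebra ℂ Ω) (a b : AlgebraicClosure K →ₐ[ℂ] Ω)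
      (c : (K →ₐ[L] AlgebraicClosure K) ⊕ (K →ₐ[L] AlgebraicClosure K) → Ω),
      (∀ s, c s ≠ 0) ∧ (∀ u u' : AlgebraicClosure K, b u = a u' → IsAlgebraic N u') ∧
      ∀ x, ∑ s, c s * phi L a b s (v x) = 0 := by
  classical
  obtain ⟨Ω, i1, i2, τ, hτ1, hτ2⟩ := exists_tau N (AlgebraicClosure K)
  let i3 : Algebra ℂ Ω := ((algebraMap (AlgebraicClosure K) Ω).comp
    (algebraMap ℂ (AlgebraicClosure K))).toAlgebra
  let a : AlgebraicClosure K →ₐ[ℂ] Ω :=
    { algebraMap (AlgebraicClosure K) Ω with commutes' := fun _ => rfl }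
  let b : AlgebraicClosure K →ₐ[ℂ] Ω :=
    { τ with
      commutes' := fun c => by
        have h1 := hτ1 (algebraMap ℂ N c)
        have h2 : algebraMap N (AlgebraicClosure K) (algebraMap ℂ N c) =
            algebraMap ℂ (AlgebraicClosure K) c :=
          (IsScalarTower.algebraMap_apply ℂ N (AlgebraicClosure K) c).symm
        rw [h2] at h1
        exact h1 }
  have hab : ∀ q : L, q ∈ N → b (algebraMap L _ q) = a (algebraMap L _ q) := by
    intro q hq
    exact hτ1 ⟨q, hq⟩
  obtain ⟨tg, htg⟩ : ∃ tg : AlgebraicClosure K, tg = algebraMap L (AlgebraicClosure K)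
    (Algebra.trace L K (J * v x0)) := ⟨_, rfl⟩
  have htg0 : tg ≠ 0 := by
    rw [htg]
    exact (_root_.map_ne_zero _).2 hT0
  have ha0 : a tg ≠ 0 := (_root_.map_ne_zero _).2 htg0
  have hb0 : b tg ≠ 0 := (_root_.map_ne_zero _).2 htg0
  refine ⟨Ω, i1, i3, a, b, Sum.elim (fun σ => b tg / a tg * a (σ J)) (fun σ => -b (σ J)), ?_,
    hτ2, ?_⟩
  · rintro (σ | σ)
    · exact mul_ne_zero (div_ne_zero hb0 ha0)
        ((_root_.map_ne_zero _).2 ((_root_.map_ne_zero _).2 hJ))
    · exact neg_ne_zero.2 ((_root_.map_ne_zero _).2 ((_root_.map_ne_zero _).2 hJ))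
  · intro x
    have h1 := hN x
    obtain ⟨q, hq⟩ : ∃ q : L, q = Algebra.trace L K (J * v x) / Algebra.trace L K (J * v x0) :=
      ⟨_, rfl⟩
    rw [← hq] at h1
    have h2 : Algebra.trace L K (J * v x) = q * Algebra.trace L K (J * v x0) := by
      rw [hq, div_mul_cancel₀ _ hT0]
    have h3 := congrArg (algebraMap L (AlgebraicClosure K)) h2
    rw [trace_emb, map_mul, ← htg] at h3
    rw [Fintype.sum_sum_type]
    have h4 : ∑ σ : K →ₐ[L] AlgebraicClosure K, (b tg / a tg * a (σ J)) *
        phi L a b (Sum.inl σ) (v x) =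
        b tg / a tg * a (∑ σ : K →ₐ[L] AlgebraicClosure K, σ (J * v x)) := by
      rw [map_sum, Finset.mul_sum]
      refine Finset.sum_congr rfl fun σ _ => ?_
      rw [map_mul, map_mul, mul_assoc]
      rfl
    have h5 : ∑ σ : K →ₐ[L] AlgebraicClosure K, (-b (σ J)) * phi L a b (Sum.inr σ) (v x) =
        -b (∑ σ : K →ₐ[L] AlgebraicClosure K, σ (J * v x)) := by
      rw [map_sum, ← Finset.sum_neg_distrib]
      refine Finset.sum_congr rfl fun σ _ => ?_
      rw [map_mul, map_mul, neg_mul]
      rfl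
    have h6 := hab q h1
    change ∑ σ : K →ₐ[L] AlgebraicClosure K, (b tg / a tg * a (σ J)) *
        phi L a b (Sum.inl σ) (v x) + ∑ σ : K →ₐ[L] AlgebraicClosure K, (-b (σ J)) *
        phi L a b (Sum.inr σ) (v x) = 0
    rw [h4, h5, h3, map_mul, map_mul, h6]
    field_simp
    ring

/-- **One copy**, monomials. -/
theorem one_pol {k : ℕ} {t : Fin k → K} {m : Fin k → ℕ} {J : K} (hJ : J ≠ 0)
    (ht : ∀ i, IntermediateField.adjoin L {t i} = ⊤)
    (hT : ∀ e : Fin k → ℕ, (∀ i, e i ≤ m i) → Algebra.trace L K (J * ∏ i, t i ^ e i) = 0)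
    (hr : Module.finrank L K ≤ ∑ i, m i + 1) : False := by
  classical
  have hL0 : CharZero L := charZero_of_injective_algebraMap (algebraMap ℂ L).injective
  have hcard : Fintype.card (K →ₐ[L] AlgebraicClosure K) = Module.finrank L K := AlgHom.card _ _ _
  have hpos : 0 < Module.finrank L K := Module.finrank_pos
  have hne : Nonempty (K →ₐ[L] AlgebraicClosure K) := Fintype.card_pos_iff.1 (by omega)
  refine no_rel_pol m (fun i σ => σ (t i)) Finset.univ
    (Finset.univ : Finset (K →ₐ[L] AlgebraicClosure K)) Finset.univ_nonempty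
    (fun i _ σ _ σ' _ h => emb_eq_prim (ht i) h) (fun σ => σ J)
    (fun σ _ => (_root_.map_ne_zero _).2 hJ) (fun e he => ?_)
    (by rw [Finset.card_univ, hcard]; exact hr)
  have h2 := congrArg (algebraMap L (AlgebraicClosure K)) (hT e he)
  rw [trace_emb, map_zero] at h2
  rw [← h2]
  refine Finset.sum_congr rfl fun σ _ => ?_
  rw [map_mul, map_prod]
  simp only [map_pow]

/-- **Two copies**, monomials. -/
theorem two_pol {k : ℕ} {t : Fin k → K} {m : Fin k → ℕ} (N : IntermediateField ℂ L) {J : K}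
    (hJ : J ≠ 0) (ht : ∀ i, IntermediateField.adjoin L {t i} = ⊤) {e0 : Fin k → ℕ}
    (he0 : ∀ i, e0 i ≤ m i) (hT0 : Algebra.trace L K (J * ∏ i, t i ^ e0 i) ≠ 0)
    (hN : ∀ e : Fin k → ℕ, (∀ i, e i ≤ m i) → Algebra.trace L K (J * ∏ i, t i ^ e i) /
      Algebra.trace L K (J * ∏ i, t i ^ e0 i) ∈ N)
    (hr : 2 * Module.finrank L K ≤ ∑ i, m i + 1) : ∃ i, IsAlgebraic N (t i) := by
  classical
  by_contra hcon
  push Not at hcon
  obtain ⟨Ω, i1, i2, a, b, c, hc0, hab, hR⟩ := exists_rel' N hJ
    (X := {e : Fin k → ℕ // ∀ i, e i ≤ m i}) (fun e => ∏ i, t i ^ e.1 i) (x0 := ⟨e0, he0⟩) hT0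
    fun e => hN e.1 e.2
  have hL0 : CharZero L := charZero_of_injective_algebraMap (algebraMap ℂ L).injective
  have hcard : Fintype.card ((K →ₐ[L] AlgebraicClosure K) ⊕ (K →ₐ[L] AlgebraicClosure K)) =
      2 * Module.finrank L K := by
    rw [Fintype.card_sum, AlgHom.card]
    ring
  have hpos : 0 < Module.finrank L K := Module.finrank_pos
  have hne : Nonempty ((K →ₐ[L] AlgebraicClosure K) ⊕ (K →ₐ[L] AlgebraicClosure K)) :=
    Fintype.card_pos_iff.1 (by omega)
  refine no_rel_pol m (fun i s => phi L a b s (t i)) Finset.univ Finset.univ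
    Finset.univ_nonempty (fun i _ => ?_) c (fun s _ => hc0 s) (fun e he => ?_)
    (by rw [Finset.card_univ, hcard]; exact hr)
  · rintro (σ | σ) - (σ' | σ') - h
    · congr 1
      exact emb_eq_prim (ht i) (a.injective h)
    · exfalso
      have h1 : a (σ (t i)) = b (σ' (t i)) := h
      exact hcon i (alg_iff N σ (hab _ _ h1.symm))
    · exfalso
      have h1 : b (σ (t i)) = a (σ' (t i)) := h
      exact hcon i (alg_iff N σ' (hab _ _ h1))
    · congr 1
      exact emb_eq_prim (ht i) (b.injective h)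
  · rw [← hR ⟨e, he⟩]
    refine Finset.sum_congr rfl fun s _ => ?_
    rw [map_prod]
    simp only [map_pow]

end

/-- **Images of varieties with many functions which generate.** -/
theorem gen_pol {K : Type} [Field K] [Algebra ℂ K] [Algebra.EssFiniteType ℂ K] {k n : ℕ}
    (hn : Algebra.trdeg ℂ K = n) {t : Fin k → K} {m : Fin k → ℕ}
    {W : (Fin n → Derivation ℂ K K) → K} (hW : IsPluri 1 W) (hW0 : ∃ G, W G ≠ 0)
    (hreg : ∀ e : Fin k → ℕ, (∀ i, e i ≤ m i) → ∀ P : Place ℂ K, Divisorial n P →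
      RegAt P (fun G => (∏ i, t i ^ e i) * W G))
    (L : IntermediateField ℂ K) [FiniteDimensional L K]
    (ht : ∀ i, IntermediateField.adjoin L {t i} = ⊤) :
    (Module.finrank L K ≤ ∑ i, m i + 1 → ¬ GenusZero L n) ∧
    (2 * Module.finrank L K ≤ ∑ i, m i + 1 →
      ∀ h, KodGe ℂ K n (fun _ => False) h → KodGe ℂ L n (fun _ => False) h) := by
  classical
  have hK0 : CharZero K := charZero_of_injective_algebraMap (algebraMap ℂ K).injective
  have hL0 : CharZero L := charZero_of_injective_algebraMap (algebraMap ℂ L).injective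
  have hessL : Algebra.EssFiniteType ℂ L := Pool.Agent.TH466.QG.ess_below (K := K)
  have hL : Algebra.trdeg ℂ L = n := Pool.Agent.Y184.NT.trdeg_below (K := K) hn
  obtain ⟨z, E, hz, hE⟩ := Pool.Agent.Y172.exists_crd (k := ℂ) (K := L) hL
  choose E' hE' using fun i => Pool.Agent.Y172.exists_lift (k := ℂ) (K := L) (L := K) hL (E i)
  have hzK : IsTranscendenceBasis ℂ (fun j => algebraMap L K (z j)) := hz.algebraMap_comp
  have hE'd := Pool.Agent.Y172.lift_dual hE hE'
  have hpos : 0 < Module.finrank L K := Module.finrank_pos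
  obtain ⟨J, hJ⟩ : ∃ J : K, J = W E' := ⟨_, rfl⟩
  have hJ0 : J ≠ 0 := by
    obtain ⟨G, hG⟩ := hW0
    have h1 := Pool.Agent.Y172.pluri_coord hzK hE'd hW G
    rw [h1] at hG
    rw [hJ]
    exact right_ne_zero_of_mul hG
  have hpl : ∀ e : Fin k → ℕ, IsPluri 1 (fun G => (∏ i, t i ^ e i) * W G) := by
    intro e A G
    change (∏ i, t i ^ e i) * W _ = _ * ((∏ i, t i ^ e i) * W G)
    rw [hW A G]
    ring
  refine ⟨fun hr h0 => ?_, fun hr h hKod => ?_⟩
  · refine one_pol hJ0 ht (fun e he => ?_) hr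
    have h1 := Pool.Agent.Y692.NT.t_Tr L K n hL h0 (fun G => (∏ i, t i ^ e i) * W G)
      (hpl e) (hreg e he) E E' hE'
    change Algebra.trace L K ((∏ i, t i ^ e i) * W E') = 0 at h1
    rwa [← hJ, mul_comm] at h1
  · obtain ⟨e0, he0, hT0⟩ : ∃ e : Fin k → ℕ, (∀ i, e i ≤ m i) ∧
        Algebra.trace L K (J * ∏ i, t i ^ e i) ≠ 0 := by
      by_contra hcon
      push Not at hcon
      exact one_pol hJ0 ht hcon (by omega)
    obtain ⟨N, hN⟩ : ∃ N : IntermediateField ℂ L, N = IntermediateField.adjoin ℂ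
      {x : L | ∃ e : Fin k → ℕ, (∀ i, e i ≤ m i) ∧
        x = Algebra.trace L K (J * ∏ i, t i ^ e i) /
        Algebra.trace L K (J * ∏ i, t i ^ e0 i)} := ⟨_, rfl⟩
    have hNm : ∀ e : Fin k → ℕ, (∀ i, e i ≤ m i) →
        Algebra.trace L K (J * ∏ i, t i ^ e i) /
          Algebra.trace L K (J * ∏ i, t i ^ e0 i) ∈ N := by
      intro e he
      rw [hN]
      exact IntermediateField.subset_adjoin _ _ ⟨e, he, rfl⟩
    obtain ⟨l, hl⟩ := two_pol N hJ0 ht he0 hT0 hNm hr
    obtain ⟨T, hT⟩ : ∃ T : (Fin k → ℕ) → L, T = fun e => Algebra.trace L K (J * ∏ i, t i ^ e i) :=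
      ⟨_, rfl⟩
    have hTreg : ∀ e : Fin k → ℕ, (∀ i, e i ≤ m i) → Rg z 1 (T e) := by
      intro e he P hP
      have h1 := Pool.Agent.R882.LT.trForm_regAt hL hz hE hE' _ (hpl e) P hP fun Q r hQ =>
          hreg e he Q (Pool.Agent.Y172.divisorial_up hQ hP)
      have h2 : pf z 1 (T e) = Pool.Agent.Y184.NT.trForm z
          (Algebra.trace L K ((∏ i, t i ^ e i) * W E')) := by
        funext G
        rw [pf, Pool.Agent.Y184.NT.trForm, pow_one, hT, ← hJ, mul_comm (∏ i, t i ^ e i) J]
      rw [h2]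
      exact h1
    have hT0' : T e0 ≠ 0 := by
      rw [hT]
      exact hT0
    have hNN : N ≤ Nf z := by
      rw [hN, IntermediateField.adjoin_le_iff]
      rintro _ ⟨e, he, rfl⟩
      refine mem_Nf.2 ⟨1, T e, T e0, hTreg e he, hTreg e0 he0, hT0', ?_⟩
      rw [hT]
    have hup : ∀ u : K, IsAlgebraic N u → IsAlgebraic (Nf z) u := by
      intro u hu
      let _ : Algebra N (Nf z) := (IntermediateField.inclusion hNN).toRingHom.toAlgebra
      have : IsScalarTower N (Nf z) K := IsScalarTower.of_algebraMap_eq fun _ => rfl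
      exact hu.extendScalars (IntermediateField.inclusion hNN).toRingHom.injective
    exact kod_up hL hz hE hE' (ht l) (hup _ hl) hT0' (hTreg e0 he0) hKod

end Pool.Agent.Helper11K9.KR
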