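import Pool.Agent.Helper11K9.KR.Multi
import Pool.Agent.W762.PG.PRES
import Pool.Agent.W240.PG.Frame
import Pool.Agent.W73.PG.PULL

/-!
Pull-backs of pluricanonical forms: the Kodaira dimension does not increase under generically finite
maps.
-/

set_option autoImplicit false
set_option linter.overlappingInstances false
set_option linter.unusedSectionVars false

open FF Pool.Agent.W602.GT Pool.Agent.W603.LV Pool.Agent.Y172

namespace Pool.Agent.Helper11K9.KR

section

variable {L K : Type} [Field L] [Field K] [Algebra ℂ L] [Algebra ℂ K] [Algebra L K]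
  [IsScalarTower ℂ L K] [FiniteDimensional L K] {n : ℕ}

/-- Pull-backs of regular pluricanonical forms are regular. -/
theorem pull_reg [Algebra.EssFiniteType ℂ L] [Algebra.EssFiniteType ℂ K]
    (hn : Algebra.trdeg ℂ L = n) {z : Fin n → L} {E : Fin n → Derivation ℂ L L}
    (hz : IsTranscendenceBasis ℂ z) (hE : ∀ i j, E i (z j) = if i = j then 1 else 0) {N : ℕ}
    {ω : (Fin n → Derivation ℂ L L) → L} (hω : IsPluri N ω)
    (hreg : ∀ P : Place ℂ L, Divisorial n P → RegAt P ω) {Q : Place ℂ K} (hQ : Divisorial n Q) :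
    RegAt Q (fun D : Fin n → Derivation ℂ K K =>
      (Matrix.of fun i j => D i (algebraMap L K (z j)) : Matrix (Fin n) (Fin n) K).det ^ N *
        algebraMap L K (ω E)) := by
  classical
  have hnK : Algebra.trdeg ℂ K = n := trdeg_up (K := L) hn
  intro D hD
  obtain ⟨e, P, hP⟩ := Pool.Agent.W73.PG.PULL.exists_over' (K := L) Q
  have hPd : Divisorial n P := Pool.Agent.Y71.NT.t_abh L K n n hn hnK Q P e hP hQ
  obtain ⟨yP, EP, i0, hbas, hdual, -, hyreg, hpres⟩ :=
    Pool.Agent.W240.PG.Frame.main.{0, 0} Pool.Agent.W762.PG.main ℂ L n hn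
      (fun y hy => Pool.Agent.Y297.NT.fd_basis hy) P hPd
  have h1 := Pool.Agent.W73.PG.PULL.form_eq (L := K) z yP hz hbas E EP hE hdual
    (m := N) ω hω D
  change Q.Reg ((Matrix.of fun i j => D i (algebraMap L K (z j)) : Matrix (Fin n) (Fin n) K).det ^ N *
    algebraMap L K (ω E))
  rw [h1]
  refine Q.reg_mul ?_ ?_
  · have h9 : Ge Q 0 (Matrix.of fun a c => D a (algebraMap L K (yP c)) :
        Matrix (Fin n) (Fin n) K).det :=
      Pool.Agent.W619.PQ.ge_det Q _ fun a b => hD a _ (hP.reg.2 (hyreg b))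
    have h10 := h9.pow N
    rw [mul_zero] at h10
    exact h10
  · exact hP.reg.2 (hreg P hPd EP hpres)

/-- The Kodaira dimension upstairs is at least the one downstairs. -/
theorem kod_down [Algebra.EssFiniteType ℂ L] [Algebra.EssFiniteType ℂ K]
    (hn : Algebra.trdeg ℂ L = n) {h : ℕ} (hL : KodGe ℂ L n (fun _ => False) h) :
    KodGe ℂ K n (fun _ => False) h := by
  classical
  have hL0 : CharZero L := charZero_of_injective_algebraMap (algebraMap ℂ L).injective
  have hnK : Algebra.trdeg ℂ K = n := trdeg_up (K := L) hn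
  obtain ⟨N, hN, ω, hω, G, hG0, hind⟩ := hL
  obtain ⟨z, E, hz, hE⟩ := exists_crd (k := ℂ) (K := L) hn
  choose E' hE' using fun i => exists_lift (k := ℂ) (K := L) (L := K) hn (E i)
  have hreg : ∀ j (P : Place ℂ L), Divisorial n P → RegAt P (ω j) := fun j P hP =>
    (hω j).2.2 P hP id
  have hG : ∀ j, ω j G = (Matrix.of fun i l => G i (z l) : Matrix (Fin n) (Fin n) L).det ^ N *
      ω j E := fun j => pluri_coord hz hE (hω j).1 G
  obtain ⟨W, hW⟩ : ∃ W : Fin (h + 1) → (Fin n → Derivation ℂ K K) → K,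
    W = fun j D => (Matrix.of fun i l => D i (algebraMap L K (z l)) :
      Matrix (Fin n) (Fin n) K).det ^ N * algebraMap L K (ω j E) := ⟨_, rfl⟩
  have hdet : (Matrix.of fun i j => E' i (algebraMap L K (z j)) : Matrix (Fin n) (Fin n) K) = 1 := by
    ext i j
    rw [Matrix.of_apply, hE', hE, Matrix.one_apply]
    split_ifs <;> simp
  have hWE : ∀ j, W j E' = algebraMap L K (ω j E) := fun j => by
    rw [hW]
    change (Matrix.of fun i l => E' i (algebraMap L K (z l)) :
      Matrix (Fin n) (Fin n) K).det ^ N * _ = _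
    rw [hdet, Matrix.det_one, one_pow, one_mul]
  have hWr : ∀ j (Q : Place ℂ K), Divisorial n Q → RegAt Q (W j) := fun j Q hQ => by
    rw [hW]
    exact pull_reg hn hz hE (hω j).1 (hreg j) hQ
  have hWp : ∀ j, IsPluri N (W j) := by
    intro j A D
    rw [hW]
    change (Matrix.of fun a b => (∑ j, A a j • D j) (algebraMap L K (z b))).det ^ N * _ =
      A.det ^ N * ((Matrix.of fun a b => D a (algebraMap L K (z b))).det ^ N * _)
    have e : (Matrix.of fun a b => (∑ j, A a j • D j) (algebraMap L K (z b))) =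
        A * Matrix.of fun a b => D a (algebraMap L K (z b)) := by
      ext a b
      rw [Matrix.of_apply, Matrix.mul_apply, Pool.Agent.W73.PG.PULL.sum_app]
      rfl
    rw [e, Matrix.det_mul, mul_pow, mul_assoc]
  refine ⟨N, hN, W, fun j => ⟨hWp j, fun P hP D hD => hWr j P hP D fun i =>
    Pool.Agent.TH466.QG.derReg_of_log (hD i), fun P hP _ => hWr j P hP⟩, E', ?_, ?_⟩
  · rw [hWE]
    refine (_root_.map_ne_zero _).2 fun h0 => hG0 ?_
    rw [hG, h0, mul_zero]
  · have h1 : (fun i : Fin h => W i.succ E' / W 0 E') =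
        fun i : Fin h => algebraMap L K (ω i.succ G / ω 0 G) := by
      funext i
      rw [hWE, hWE, hG, hG, ← map_div₀]
      congr 1
      have h2 : (Matrix.of fun i l => G i (z l) : Matrix (Fin n) (Fin n) L).det ^ N ≠ 0 := by
        have h3 := hG0
        rw [hG] at h3
        exact left_ne_zero_of_mul h3
      rw [mul_div_mul_left _ _ h2]
    rw [h1]
    exact hind.map' (f := IsScalarTower.toAlgHom ℂ L K) (algebraMap L K).injective

end

end Pool.Agent.Helper11K9.KR
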