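import Pool.Agent.Helper11K9.KR.Kill

/-!
Many factors which generate: one copy and two copies of the embeddings.
-/

set_option autoImplicit false
set_option linter.overlappingInstances false
set_option linter.unusedSectionVars false

open FF IntermediateField

namespace Pool.Agent.Helper11K9.KR

open Pool.Agent.W603.LV Pool.Agent.W602.RG
open Pool.Agent.Helper11K9.PC Pool.Agent.Helper11K9.MT Pool.Agent.Helper11K9.OD
  Pool.Agent.Helper11K9.PR

section

variable {k Ω α : Type} [Field k] [CharZero k] [IsAlgClosed k] [Field Ω] [Algebra k Ω]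
  [DecidableEq α] {F : α → Type} [∀ i, Field (F i)] [∀ i, Algebra k (F i)] [∀ i, IsFF k (F i)]
  {D : ∀ i, Derivation k (F i) (F i)}

theorem no_rel_set (hD : ∀ i, D i ≠ 0) {g0 : ∀ i, F i} (hg0 : ∀ i, RegD (D i) (g0 i)) {c : ℕ}
    (hc : 3 ≤ c) {p q : α} (hpq : p ≠ q) (hp : c ≤ Module.finrank k (RR (D p) (hD p)))
    (hq : c ≤ Module.finrank k (RR (D q) (hD q)))
    (hγ : ∀ t : F q, Transcendental k t → 3 ≤ Module.finrank k⟮t⟯ (F q)) {S : Finset α}
    (hpS : p ∈ S) (hqS : q ∈ S) {ι : Type} [Fintype ι] [Nonempty ι] {τ : ∀ i, ι → F i →ₐ[k] Ω}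
    (hτ : ∀ i ∈ S, Function.Injective (τ i)) {C : ι → Ω} (hC : ∀ s, C s ≠ 0)
    (hR : ∀ f : ∀ i, F i, (∀ i, RegD (D i) (f i)) → ∑ s, C s * ∏ i ∈ S, τ i s (f i) = 0)
    (hcard : Fintype.card ι < ∑ i ∈ S, (min (Module.finrank k (RR (D i) (hD i))) c - 1)) :
    False := by
  have hqp : q ∈ S.erase p := Finset.mem_erase.2 ⟨hpq.symm, hqS⟩
  have hS : insert p (insert q ((S.erase p).erase q)) = S := by
    rw [Finset.insert_erase hqp, Finset.insert_erase hpS]
  rw [← Finset.add_sum_erase _ _ hpS, ← Finset.add_sum_erase _ _ hqp, min_eq_right hp,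
    min_eq_right hq] at hcard
  refine no_rel hD hg0 hc hpq hp hq hγ ((S.erase p).erase q)
    (fun h => Finset.notMem_erase p S (Finset.mem_of_mem_erase h)) (Finset.notMem_erase _ _) ι τ
    (by rw [hS]; exact hτ) C hC (by rw [hS]; exact hR) (by omega)

end

section

variable {K : Type} [Field K] [Algebra ℂ K] {k : ℕ}
  {F : Fin k → IntermediateField ℂ K} [∀ i, IsFF ℂ (F i)] {D : ∀ i, Derivation ℂ (F i) (F i)}
  {L : IntermediateField ℂ K} [FiniteDimensional L K]

/-- splitting the product -/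
theorem prod_split (S : Finset (Fin k)) (f g : ∀ i, F i) :
    ∏ i, (((if i ∈ S then f i else g i : F i)) : K) =
      (∏ i ∈ S, (f i : K)) * ∏ i ∈ Finset.univ \ S, (g i : K) := by
  rw [← Finset.prod_sdiff (Finset.subset_univ S), mul_comm]
  congr 1
  · exact Finset.prod_congr rfl fun i hi => by rw [if_pos hi]
  · exact Finset.prod_congr rfl fun i hi => by rw [if_neg (Finset.mem_sdiff.1 hi).2]

/-- **One copy.** -/
theorem one_many (hD : ∀ i, D i ≠ 0) {J : K} (hJ : J ≠ 0)
    {g : ∀ i, F i} (hg : ∀ i, RegD (D i) (g i))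
    (hT : ∀ f : ∀ i, F i, (∀ i, RegD (D i) (f i)) → Algebra.trace L K (J * ∏ i, (f i : K)) = 0)
    {S : Finset (Fin k)} (hS : ∀ i ∈ S, IntermediateField.adjoin L (F i : Set K) = ⊤) {c : ℕ}
    (hc : 3 ≤ c) {p q : Fin k} (hpq : p ≠ q) (hp : c ≤ Module.finrank ℂ (RR (D p) (hD p)))
    (hq : c ≤ Module.finrank ℂ (RR (D q) (hD q)))
    (hγ : ∀ t : F q, Transcendental ℂ t → 3 ≤ Module.finrank ℂ⟮t⟯ (F q))
    (hpS : p ∈ S) (hqS : q ∈ S)
    (hr : Module.finrank L K < ∑ i ∈ S, (min (Module.finrank ℂ (RR (D i) (hD i))) c - 1)) :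
    False := by
  classical
  have hL0 : CharZero L := charZero_of_injective_algebraMap (algebraMap ℂ L).injective
  have hcard : Fintype.card (K →ₐ[L] AlgebraicClosure K) = Module.finrank L K := AlgHom.card _ _ _
  have hpos : 0 < Module.finrank L K := Module.finrank_pos
  have hne : Nonempty (K →ₐ[L] AlgebraicClosure K) := Fintype.card_pos_iff.1 (by omega)
  let φ : (K →ₐ[L] AlgebraicClosure K) → K →ₐ[ℂ] AlgebraicClosure K :=
    fun σ => σ.restrictScalars ℂ
  refine no_rel_set (F := fun i => F i) (τ := fun i => vl F φ i) hD hg hc hpq hp hq hγ hpS hqS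
    (fun i hi σ σ' h => emb_eq (hS i hi) fun u => DFunLike.congr_fun h u)
    (C := fun σ => σ J * ∏ l ∈ Finset.univ \ S, σ (g l : K))
    (fun σ => mul_ne_zero ((_root_.map_ne_zero _).2 hJ) (Finset.prod_ne_zero_iff.2 fun l _ => by
      rw [_root_.map_ne_zero]
      intro h
      exact (hg l).1 (Subtype.ext h))) (fun f hf => ?_) (by rw [hcard]; exact hr)
  have h2 := hT (fun i => if i ∈ S then f i else g i) fun l => by
    split_ifs
    · exact hf l
    · exact hg l
  have h2' := congrArg (algebraMap L (AlgebraicClosure K)) h2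
  rw [trace_emb, map_zero] at h2'
  rw [← h2']
  refine Finset.sum_congr rfl fun σ _ => ?_
  rw [prod_split, map_mul, map_mul, map_prod, map_prod]
  change _ * ∏ i ∈ S, σ (f i : K) = _
  ring

/-- **Two copies.** -/
theorem two_many (hD : ∀ i, D i ≠ 0) (N : IntermediateField ℂ L) {J : K} (hJ : J ≠ 0)
    {g : ∀ i, F i} (hg : ∀ i, RegD (D i) (g i))
    (hTg : Algebra.trace L K (J * ∏ i, (g i : K)) ≠ 0)
    (hN : ∀ f : ∀ i, F i, (∀ i, RegD (D i) (f i)) →
      Algebra.trace L K (J * ∏ i, (f i : K)) / Algebra.trace L K (J * ∏ i, (g i : K)) ∈ N)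
    {S : Finset (Fin k)} (hS : ∀ i ∈ S, IntermediateField.adjoin L (F i : Set K) = ⊤) {c : ℕ}
    (hc : 3 ≤ c) {p q : Fin k} (hpq : p ≠ q) (hp : c ≤ Module.finrank ℂ (RR (D p) (hD p)))
    (hq : c ≤ Module.finrank ℂ (RR (D q) (hD q)))
    (hγ : ∀ t : F q, Transcendental ℂ t → 3 ≤ Module.finrank ℂ⟮t⟯ (F q))
    (hpS : p ∈ S) (hqS : q ∈ S)
    (hr : 2 * Module.finrank L K < ∑ i ∈ S, (min (Module.finrank ℂ (RR (D i) (hD i))) c - 1)) :
    ∃ i ∈ S, ∀ u : F i, IsAlgebraic N (u : K) := by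
  classical
  by_contra hcon
  push Not at hcon
  obtain ⟨Ω, i1, i2, a, b, c', lam, hlam, hc', hc0, hab, hR⟩ := exists_rel N hJ hTg hN
  have hL0 : CharZero L := charZero_of_injective_algebraMap (algebraMap ℂ L).injective
  have hcard : Fintype.card ((K →ₐ[L] AlgebraicClosure K) ⊕ (K →ₐ[L] AlgebraicClosure K)) =
      2 * Module.finrank L K := by
    rw [Fintype.card_sum, AlgHom.card]
    ring
  have hpos : 0 < Module.finrank L K := Module.finrank_pos
  have hne : Nonempty ((K →ₐ[L] AlgebraicClosure K) ⊕ (K →ₐ[L] AlgebraicClosure K)) :=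
    Fintype.card_pos_iff.1 (by omega)
  refine no_rel_set (F := fun i => F i) (τ := fun i => vl F (phi L a b) i) hD hg hc hpq hp hq hγ
    hpS hqS (fun i hi => by
      obtain ⟨u, hu⟩ := hcon i hi
      exact vl_inj (F := F) hab (hS i hi) hu)
    (C := fun s => c' s * ∏ l ∈ Finset.univ \ S, phi L a b s (g l : K))
    (fun s => mul_ne_zero (hc0 s) (Finset.prod_ne_zero_iff.2 fun l _ => by
      rw [_root_.map_ne_zero]
      intro h
      exact (hg l).1 (Subtype.ext h))) (fun f hf => ?_) (by rw [hcard]; exact hr)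
  have h2 := hR (fun i => if i ∈ S then f i else g i) fun l _ => by
    split_ifs
    · exact hf l
    · exact hg l
  rw [← h2]
  refine Finset.sum_congr rfl fun s _ => ?_
  have h3 := congrArg (phi L a b s) (prod_split S f g)
  rw [map_prod, map_mul, map_prod, map_prod] at h3
  rw [h3]
  change _ * ∏ i ∈ S, phi L a b s (f i : K) = _
  ring

end

end Pool.Agent.Helper11K9.KR
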