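import Pool.Agent.Helper11K9.KR.Down
import Pool.Agent.Helper11K9.PR.Res

/-!
Images of varieties with maps to curves: the statement with regular differential forms.
-/

set_option autoImplicit false
set_option linter.overlappingInstances false
set_option linter.unusedSectionVars false

open FF IntermediateField

namespace Pool.Agent.Helper11K9.KR

open Pool.Agent.W603.LV Pool.Agent.W602.RG
open Pool.Agent.W602.GT (Divisorial RegAt IsPluri KodGe LogSec DerReg)
open Pool.Agent.W619.PQ (extForm)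
open Pool.Agent.R882.Over (GenusZero)
open Pool.Agent.Helper11K9.PC Pool.Agent.Helper11K9.MT Pool.Agent.Helper11K9.OD
  Pool.Agent.Helper11K9.PR

/-- a function which satisfies the conditions for the value of a regular form is the value of a
regular form -/
theorem exists_form {F : Type} [Field F] [Algebra ℂ F] [IsFF ℂ F] {δ : Derivation ℂ F F}
    (hδ : δ ≠ 0) {f : F} (hf : RegD δ f) :
    ∃ ω : Derivation ℂ F F →ₗ[F] F, ω ∈ regForms ℂ F ∧ ω δ = f := by
  obtain ⟨t, ht⟩ := IsFF.exists_transcendental (k := ℂ) (K := F)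
  have h0 := der_ne_zero hδ ht
  let ω : Derivation ℂ F F →ₗ[F] F :=
    { toFun := fun D => D t * (f / δ t)
      map_add' := fun a b => by
        rw [Derivation.add_apply]
        ring
      map_smul' := fun c a => by
        rw [Derivation.smul_apply, smul_eq_mul, RingHom.id_apply, smul_eq_mul]
        ring }
  have hval : ∀ h : F, ω (h • δ) = h * f := by
    intro h
    change (h • δ) t * (f / δ t) = h * f
    rw [Derivation.smul_apply, smul_eq_mul]
    field_simp
  refine ⟨ω, fun P D hD => ?_, ?_⟩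
  · obtain ⟨h, rfl⟩ := der_smul (D' := D) hδ
    rw [hval]
    by_cases hh : h = 0
    · left
      rw [hh, zero_mul]
    · right
      have hne : h • δ ≠ 0 := smul_ne_zero hh hδ
      have h1 := vo_smul P hδ hh
      have h2 : 0 ≤ vo P (h • δ) := by
        have hu : P.Reg (unif P) := Or.inr (by rw [ord_unif]; omega)
        have h3 := hD _ hu
        rcases h3 with h3 | h3
        · unfold vo
          rw [h3, P.ord_zero]
        · exact h3
      rw [P.ord_mul hh hf.1]
      have h4 := hf.2 P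
      omega
  · have h1 := hval 1
    rw [one_smul, one_mul] at h1
    exact h1

/-- **Images of varieties with many maps to curves**: genera and gonalities. -/
theorem cur {K : Type} [Field K] [Algebra ℂ K] [Algebra.EssFiniteType ℂ K] {k n : ℕ}
    (hn : Algebra.trdeg ℂ K = n) (F : Fin k → IntermediateField ℂ K) (hF : ∀ i, IsFF ℂ (F i))
    {W : (Fin n → Derivation ℂ K K) → K} (hW : IsPluri 1 W) (hW0 : ∃ G, W G ≠ 0)
    {δ : ∀ i, Derivation ℂ (F i) (F i)} (hδ : ∀ i, δ i ≠ 0)
    (hreg : ∀ ω : ∀ i, Derivation ℂ (F i) (F i) →ₗ[F i] F i, (∀ i, ω i ∈ regForms ℂ (F i)) →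
      ∀ P : Place ℂ K, Divisorial n P → RegAt P (fun G => (∏ i, (ω i (δ i) : K)) * W G))
    (L : IntermediateField ℂ K) [FiniteDimensional L K]
    (hgen : ∀ i, IntermediateField.adjoin L (F i : Set K) = ⊤)
    (hg : ∀ i, 1 ≤ PR.gen ℂ (F i)) {c : ℕ} (hc : 3 ≤ c) {p q : Fin k} (hpq : p ≠ q)
    (hp : c ≤ PR.gen ℂ (F p)) (hq : c ≤ PR.gen ℂ (F q)) (hγ : 3 ≤ gon (F q)) :
    (Module.finrank L K < ∑ i, (min (PR.gen ℂ (F i)) c - 1) → ¬ GenusZero L n) ∧
    (2 * Module.finrank L K < ∑ i, (min (PR.gen ℂ (F i)) c - 1) →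
      ∀ h, KodGe ℂ L n (fun _ => False) h ↔ KodGe ℂ K n (fun _ => False) h) := by
  classical
  have hessL : Algebra.EssFiniteType ℂ L := Pool.Agent.TH466.QG.ess_below (K := K)
  have hL : Algebra.trdeg ℂ L = n := Pool.Agent.Y184.NT.trdeg_below (K := K) hn
  have hle : ∀ i, PR.gen ℂ (F i) ≤ Module.finrank ℂ (RR (δ i) (hδ i)) := fun i => by
    have := hF i
    rw [gen_eq]
    exact forms_le (hδ i)
  have hex : ∀ i, ∃ g : F i, RegD (δ i) g := by
    intro i
    have h1 := (hg i).trans (hle i)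
    have h2 : 0 < Module.finrank ℂ (RR (δ i) (hδ i)) := h1
    obtain ⟨⟨g, hg1⟩, hg0⟩ := Module.finrank_pos_iff_exists_ne_zero.1 h2
    have hg0' : g ≠ 0 := fun h => hg0 (Subtype.ext h)
    exact ⟨g, hg0', (mem_RR.1 hg1).resolve_left hg0'⟩
  choose g0 hg0 using hex
  have hreg' : ∀ f : ∀ i, F i, (∀ i, RegD (δ i) (f i)) → ∀ P : Place ℂ K, Divisorial n P →
      RegAt P (fun G => (∏ i, (f i : K)) * W G) := by
    intro f hf P hP
    choose ω hω hωf using fun i => exists_form (hδ i) (hf i)
    have h1 := hreg ω hω P hP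
    simp only [hωf] at h1
    exact h1
  have hsum : ∑ i, (min (PR.gen ℂ (F i)) c - 1) ≤
      ∑ i, (min (Module.finrank ℂ (RR (δ i) (hδ i))) c - 1) :=
    Finset.sum_le_sum fun i _ => by
      have := hle i
      omega
  have hmain := Pool.Agent.Helper11K9.KR.gen hn F hδ hW hW0 hreg' L (S := Finset.univ)
    (fun i _ => hgen i) hg0 hc hpq (hp.trans (hle p)) (hq.trans (hle q))
    (fun t ht => hγ.trans (gon_le ht)) (Finset.mem_univ p) (Finset.mem_univ q)
  exact ⟨fun hr => hmain.1 (hr.trans_le hsum), fun hr h => ⟨kod_down hL,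
    hmain.2 (hr.trans_le hsum) h⟩⟩

/-- varieties which are generically finite over products of curves -/
theorem form_of_finite {K : Type} [Field K] [Algebra ℂ K] {n : ℕ}
    (hn : Algebra.trdeg ℂ K = n) (F : Fin n → IntermediateField ℂ K) (hF : ∀ i, IsFF ℂ (F i))
    (halg : Algebra.IsAlgebraic (⨆ i, F i : IntermediateField ℂ K) K) :
    ∃ (W : (Fin n → Derivation ℂ K K) → K) (δ : ∀ i, Derivation ℂ (F i) (F i)), IsPluri 1 W ∧
      (∃ G, W G ≠ 0) ∧ (∀ i, δ i ≠ 0) ∧
      ∀ ω : ∀ i, Derivation ℂ (F i) (F i) →ₗ[F i] F i, (∀ i, ω i ∈ regForms ℂ (F i)) →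
      ∀ P : Place ℂ K, Divisorial n P → RegAt P (fun G => (∏ i, (ω i (δ i) : K)) * W G) := by
  classical
  have hK0 : CharZero K := charZero_of_injective_algebraMap (algebraMap ℂ K).injective
  obtain ⟨D, hDe⟩ : ∃ D : ∀ i, Derivation ℂ (F i) (F i), D = fun i => der ℂ (F i) := ⟨_, rfl⟩
  have hD : ∀ i, D i ≠ 0 := by
    intro i
    rw [hDe]
    exact der_ne
  choose x hx using fun i => IsFF.exists_transcendental (k := ℂ) (K := F i)
  have hxb : IsTranscendenceBasis ℂ fun i => algebraMap (F i) K (x i) := by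
    obtain ⟨A, hA⟩ : ∃ A : IntermediateField ℂ K,
      A = IntermediateField.adjoin ℂ (Set.range fun i => (x i : K)) := ⟨_, rfl⟩
    have hAM : A ≤ ⨆ i, F i := by
      rw [hA, IntermediateField.adjoin_le_iff]
      rintro _ ⟨i, rfl⟩
      exact (le_iSup F i) (x i).2
    let _ : Algebra A (⨆ i, F i : IntermediateField ℂ K) :=
      (IntermediateField.inclusion hAM).toRingHom.toAlgebra
    have : IsScalarTower A (⨆ i, F i : IntermediateField ℂ K) K :=
      IsScalarTower.of_algebraMap_eq fun _ => rfl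
    have h1 : Algebra.IsAlgebraic A (⨆ i, F i : IntermediateField ℂ K) := ⟨fun z => by
      have h2 : IsAlgebraic A (z : K) := by
        rw [hA]
        exact Pool.Agent.W619.PQ.alg_iSup F x hx z.2
      exact (isAlgebraic_algebraMap_iff (A := K)
        (algebraMap (⨆ i, F i : IntermediateField ℂ K) K).injective).1 h2⟩
    have h2 : Algebra.IsAlgebraic A K := Algebra.IsAlgebraic.trans A
      (⨆ i, F i : IntermediateField ℂ K) K
    have h3 : Algebra.IsAlgebraic
        (Algebra.adjoin ℂ (Set.range fun i => algebraMap (F i) K (x i))) K :=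
      Pool.Agent.W619.PQ.alg_adjoin fun z => by
        have h4 := h2.isAlgebraic z
        rw [hA] at h4
        exact h4
    refine Algebra.IsAlgebraic.isTranscendenceBasis_of_lift_le_trdeg_of_finite ℂ _ ?_
    rw [hn]
    simp
  refine ⟨extForm 1 D x (fun _ => 1), D, Pool.Agent.W619.PQ.extForm_pluri 1 D x (fun _ => 1),
    Pool.Agent.W619.PQ.extForm_ne (K := K) 1 D x (fun _ => 1)
      (fun i => one_ne_zero) (fun i => der_ne_zero (hD i) (hx i)) hxb, hD, ?_⟩
  intro ω hω P hP
  by_cases h0 : ∃ i, ω i (D i) = 0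
  · obtain ⟨i, hi⟩ := h0
    intro G _
    left
    change (∏ i, (ω i (D i) : K)) * _ = 0
    rw [Finset.prod_eq_zero (Finset.mem_univ i) (by rw [hi]; rfl), zero_mul]
  · push Not at h0
    have h1 := ext_reg hD hx (f := fun i => ω i (D i)) (fun i => ⟨h0 i, fun P =>
      (val_of_regForm (hD i) (hω i) P).resolve_left (h0 i)⟩) P hP
    have h2 : extForm 1 D x (fun i => ω i (D i)) = fun G => (∏ i, (ω i (D i) : K)) *
        extForm 1 D x (fun _ => 1) G := by
      funext G
      rw [ext_val, mul_comm]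
    rw [h2] at h1
    exact h1

end Pool.Agent.Helper11K9.KR
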