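import Pool.Agent.Helper11K9.PR.Iit
import Pool.Agent.W619.PQ.Approx

/-!
The ratio of regular pluricanonical forms upstairs and downstairs.
-/

set_option autoImplicit false
set_option linter.overlappingInstances false
set_option linter.unusedSectionVars false

open FF Pool.Agent.W602.GT Pool.Agent.W603.LV Pool.Agent.Y172

namespace Pool.Agent.Helper11K9.KR

open Pool.Agent.Helper11K9.PR

section

variable {L K : Type} [Field L] [Field K] [Algebra ℂ L] [Algebra ℂ K] [Algebra L K]
  [IsScalarTower ℂ L K] [FiniteDimensional L K] {n : ℕ}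

/-- there is no ramification at a place where the powers of a primitive element are an integral basis
with unit discriminant -/
theorem unram {P : Place ℂ L} {b : K}
    (hb : ∀ (Q : Place ℂ K) (e : ℕ), Over Q P e → Ge Q 0 b) {s : ℕ}
    (h2 : ∀ x : K, ∃ c : Fin s → L, x = ∑ i, algebraMap L K (c i) * b ^ (i : ℕ))
    (hdet : (trm L b s).det ≠ 0) (hd : Ge P 0 (trm L b s).det⁻¹) {Q : Place ℂ K} {e : ℕ}
    (hQ : Over Q P e) : e = 1 := by
  classical
  have hL0 : CharZero L := charZero_of_injective_algebraMap (algebraMap ℂ L).injective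
  by_contra hne
  have he : 2 ≤ e := by
    have := hQ.1
    omega
  obtain ⟨S, -, hS, -, -⟩ := exists_places_over (K' := K) P
  obtain ⟨π, hπ0, hπ⟩ := Q.surj
  obtain ⟨t, ht0, ht⟩ := P.surj
  obtain ⟨u, hu, huS⟩ := Pool.Agent.W619.PQ.approx_one (S.erase Q) Q (Finset.notMem_erase Q S) π 2
  have hu0 : u ≠ 0 := by
    intro h
    rw [h, zero_sub] at hu
    rcases hu with hu | hu
    · exact hπ0 (neg_eq_zero.1 hu)
    · rw [Q.ord_neg, hπ] at hu
      omega
  have hu1 : Q.ord u = 1 := by
    by_cases h0 : u - π = 0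
    · rw [sub_eq_zero.1 h0, hπ]
    · have h1 := Q.ord_add_eq hπ0 h0 (by
        rw [hπ]
        have := hu.resolve_left h0
        omega)
      rw [add_sub_cancel] at h1
      rw [h1.2, hπ]
  have htK : algebraMap L K t ≠ 0 := (_root_.map_ne_zero _).2 ht0
  have h3 := good_reg hb h2 hdet hd (z := u / algebraMap L K t) (fun Q' e' hQ' => by
    right
    rw [Q'.ord_div hu0 htK, hQ'.2, ht, mul_one]
    by_cases hQQ : Q' = Q
    · subst hQQ
      rw [hu1]
    · rcases huS Q' (Finset.mem_erase.2 ⟨hQQ, hS Q' e' hQ'⟩) with h | h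
      · exact absurd h hu0
      · omega) Q e hQ
  rcases h3 with h3 | h3
  · exact div_ne_zero hu0 htK h3
  · rw [Q.ord_div hu0 htK, hQ.2, ht, mul_one, hu1] at h3
    omega

/-- **Pluricanonical forms upstairs and downstairs.** -/
theorem iitw [Algebra.EssFiniteType ℂ L] [Algebra.EssFiniteType ℂ K]
    (hn : Algebra.trdeg ℂ L = n) {y : Fin n → L} {E : Fin n → Derivation ℂ L L}
    (hy : IsTranscendenceBasis ℂ y) (hE : ∀ i j, E i (y j) = if i = j then 1 else 0)
    {E' : Fin n → Derivation ℂ K K} (hE' : ∀ i f, E' i (algebraMap L K f) = algebraMap L K (E i f))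
    {b : K} (hb : IntermediateField.adjoin L {b} = ⊤) (hbN : IsAlgebraic (Nf y) b) {w : ℕ}
    {W : (Fin n → Derivation ℂ K K) → K} (hW : IsPluri w W)
    (hreg : ∀ Q : Place ℂ K, Divisorial n Q → RegAt Q W) {T : L} (hT0 : T ≠ 0)
    (hT : Rg y w T) : IsAlgebraic (Nf y) (W E' / algebraMap L K T) := by
  classical
  have hL0 : CharZero L := charZero_of_injective_algebraMap (algebraMap ℂ L).injective
  have hnK : Algebra.trdeg ℂ K = n := trdeg_up (K := L) hn
  obtain ⟨s, h1, h2⟩ := exists_pow L b
  have h2' : ∀ x : K, ∃ c : Fin s → L, x = ∑ i, algebraMap L K (c i) * b ^ (i : ℕ) :=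
    fun x => h2 x (by rw [hb]; trivial)
  have hdet := trm_det h1 h2
  obtain ⟨m1, G1, hG10, hG1, hl1⟩ := alg_lead hbN
  obtain ⟨m2, G2, hG20, hG2, hl2⟩ := alg_lead (det_alg (Nf y) hbN s)
  obtain ⟨θ, hθ⟩ : ∃ θ, θ = W E' := ⟨_, rfl⟩
  rw [← hθ]
  refine alg_of_traces (Nf y) fun k hk => ?_
  -- the form of weight `k`
  have hA : Rg y ((k * w) * (m1 + m2) + k * w)
      ((G1 * G2) ^ (k * w) * Algebra.trace L K (θ ^ k)) := by
    intro P hP
    obtain ⟨yP, EP, i0, hl⟩ := exists_loc hn hP
    rw [regAt_iff hl, pf_mul, pf_pow]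
    choose EP' hEP' using fun i => exists_lift (L := K) hn (EP i)
    obtain ⟨θP, hθP⟩ : ∃ θP, θP = W EP' := ⟨_, rfl⟩
    have hval : pf y (k * w) (Algebra.trace L K (θ ^ k)) EP = Algebra.trace L K (θP ^ k) := by
      have h3 := pluri_coord (hy.algebraMap_comp (A := K)) (lift_dual hE hE') hW EP'
      have h4 : (Matrix.of fun i j => EP' i ((algebraMap L K ∘ y) j) :
          Matrix (Fin n) (Fin n) K).det =
          algebraMap L K (Matrix.of fun i j => EP i (y j) : Matrix (Fin n) (Fin n) L).det := by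
        rw [RingHom.map_det]
        congr 1
        ext i j
        rw [Matrix.of_apply, RingHom.mapMatrix_apply, Matrix.map_apply, Matrix.of_apply]
        exact hEP' i (y j)
      have h5 : θP ^ k = (Matrix.of fun i j => EP i (y j) : Matrix (Fin n) (Fin n) L).det ^ (k * w)
          • θ ^ k := by
        rw [hθP, h3, Algebra.smul_def, map_pow, ← h4, mul_pow, hθ, ← pow_mul, mul_comm w k]
      rw [h5, map_smul, smul_eq_mul, pf]
    have hge : ∀ (Q : Place ℂ K) (e : ℕ), Over Q P e → Ge Q (w * (1 - e)) θP := by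
      intro Q e hQ
      have hQd : Divisorial n Q := divisorial_up hQ hP
      have h1 := down_ge hnK hQ hQd hl hEP' hW (c := 0) (fun G' hG' => by
        rcases hreg Q hQd G' hG' with h | h
        · exact Or.inl h
        · exact Or.inr (by exact_mod_cast h))
      rw [← hθP] at h1
      rcases h1 with h1 | h1
      · exact Or.inl h1
      · right
        have h2 : ((w * (1 - e) : ℤ) : ℝ) ≤ (Q.ord θP : ℝ) := by
          push_cast
          push_cast at h1
          nlinarith
        exact_mod_cast h2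
    have hP1 : Ge P 0 (pf y m1 G1 EP) := (regAt_iff hl).1 (hG1 P hP)
    have hP2 : Ge P 0 (pf y m2 G2 EP) := (regAt_iff hl).1 (hG2 P hP)
    rw [hval, pf_mul]
    by_cases hgood : (∀ (Q : Place ℂ K) (e : ℕ), Over Q P e → Ge Q 0 b) ∧
        Ge P 0 (trm L b s).det⁻¹
    · have h4 : Ge P 0 (Algebra.trace L K (θP ^ k)) :=
        Pool.Agent.Y692.NT.trace_reg P _ fun Q e hQ => by
          have h6 := unram hgood.1 h2' hdet hgood.2 hQ
          have h5 := (hge Q e hQ).pow k
          subst h6
          rw [Nat.cast_one, sub_self, mul_zero, mul_zero] at h5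
          rw [Nat.cast_one, sub_self]
          exact h5
      have h5 := ((hP1.mul hP2).pow (k * w)).mul h4
      rw [add_zero, add_zero, mul_zero] at h5
      exact h5
    · have h3 : Ge P 1 (pf y m1 G1 EP * pf y m2 G2 EP) := by
        rw [not_and_or] at hgood
        rcases hgood with hg | hg
        · push Not at hg
          obtain ⟨Q, e, hQ, hbQ⟩ := hg
          have h4 : Q.ord b < 0 := by
            by_contra hcon
            exact hbQ (Or.inr (by omega))
          have h5 := (hl1 P hP yP EP i0 hl Q e hQ h4).mul hP2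
          rwa [add_zero] at h5
        · obtain ⟨Q, e, hQ⟩ := exists_above (L := K) P
          have h4 : P.ord (trm L b s).det⁻¹ < 0 := by
            by_contra hcon
            exact hg (Or.inr (by omega))
          have h6 : (0 : ℤ) < e := by exact_mod_cast hQ.1
          have h5 := hP1.mul (hl2 P hP yP EP i0 hl Q e hQ (by
            rw [hQ.2]
            exact mul_neg_of_pos_of_neg h6 h4))
          rwa [zero_add] at h5
      have h4 : Ge P (-((k * w : ℕ) : ℤ)) (Algebra.trace L K (θP ^ k)) := by
        have h5 : Ge P 0 (yP i0 ^ (k * w) * Algebra.trace L K (θP ^ k)) := by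
          rw [← smul_eq_mul, ← map_smul]
          refine Pool.Agent.Y692.NT.trace_reg P _ fun Q e hQ => ?_
          rw [Algebra.smul_def, map_pow]
          have h6 : Ge Q e (algebraMap L K (yP i0)) := Or.inr (by
            rw [hQ.2, hl.unif, mul_one])
          have h7 := (h6.pow (k * w)).mul ((hge Q e hQ).pow k)
          refine h7.mono ?_
          have h8 : (1 : ℤ) ≤ e := by exact_mod_cast hQ.1
          have h9 : ((k * w : ℕ) : ℤ) * e + k * (w * (1 - e)) = (k : ℤ) * w := by
            push_cast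
            ring
          rw [h9]
          have h10 : (0 : ℤ) ≤ (k : ℤ) * w := by positivity
          omega
        have h6 := Ge.of_mul (pow_ne_zero _ hl.ne) h5
        rw [P.ord_pow, hl.unif, mul_one] at h6
        refine h6.mono ?_
        omega
      have h5 := (h3.pow (k * w)).mul h4
      exact h5.mono (by
        push_cast
        omega)
  have hB : Rg y ((k * w) * (m1 + m2) + k * w) ((G1 * G2) ^ (k * w) * T ^ k) :=
    ((hG1.mul hG2).pow (k * w)).mul (hT.pow k)
  have hG0 : (G1 * G2) ^ (k * w) ≠ 0 := pow_ne_zero _ (mul_ne_zero hG10 hG20)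
  refine mem_Nf.2 ⟨_, _, _, hA, hB, mul_ne_zero hG0 (pow_ne_zero _ hT0), ?_⟩
  rw [mul_div_mul_left _ _ hG0]
  have h3 : (θ / algebraMap L K T) ^ k = (T ^ k)⁻¹ • θ ^ k := by
    rw [Algebra.smul_def, map_inv₀, map_pow, div_pow, div_eq_inv_mul]
  rw [h3, map_smul, smul_eq_mul, div_eq_inv_mul]

end

end Pool.Agent.Helper11K9.KR
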