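import Pool.Agent.Helper11K9.KR.Copies
import Pool.Agent.Helper11K9.KR.Iitw

/-!
Images of varieties with many maps to curves.
-/

set_option autoImplicit false
set_option linter.overlappingInstances false
set_option linter.unusedSectionVars false

open FF IntermediateField

namespace Pool.Agent.Helper11K9.KR

open Pool.Agent.W603.LV Pool.Agent.W602.RG
open Pool.Agent.W602.GT (Divisorial RegAt IsPluri KodGe LogSec)
open Pool.Agent.R882.Over (GenusZero)
open Pool.Agent.Helper11K9.PC Pool.Agent.Helper11K9.MT Pool.Agent.Helper11K9.OD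
  Pool.Agent.Helper11K9.PR

section

variable {L K : Type} [Field L] [Field K] [Algebra ℂ L] [Algebra ℂ K] [Algebra L K]
  [IsScalarTower ℂ L K] [FiniteDimensional L K] {n : ℕ}

/-- the Kodaira dimensions are equal if a primitive element is algebraic over the field of the ratios
of the pluricanonical forms -/
theorem kod_up [Algebra.EssFiniteType ℂ L] [Algebra.EssFiniteType ℂ K]
    (hn : Algebra.trdeg ℂ L = n) {y : Fin n → L} {E : Fin n → Derivation ℂ L L}
    (hy : IsTranscendenceBasis ℂ y) (hE : ∀ i j, E i (y j) = if i = j then 1 else 0)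
    {E' : Fin n → Derivation ℂ K K} (hE' : ∀ i f, E' i (algebraMap L K f) = algebraMap L K (E i f))
    {b : K} (hb : IntermediateField.adjoin L {b} = ⊤) (hbN : IsAlgebraic (Nf y) b)
    {T : L} (hT0 : T ≠ 0) (hT : Rg y 1 T) {h : ℕ} (hK : KodGe ℂ K n (fun _ => False) h) :
    KodGe ℂ L n (fun _ => False) h := by
  classical
  obtain ⟨m, hm, ω, hω, G, hG0, hind⟩ := hK
  have hval : ∀ j, ω j G = (Matrix.of fun i l => G i (algebraMap L K (y l)) :
      Matrix (Fin n) (Fin n) K).det ^ m * ω j E' := fun j =>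
    Pool.Agent.Y172.pluri_coord (hy.algebraMap_comp (A := K)) (Pool.Agent.Y172.lift_dual hE hE')
      (hω j).1 G
  have h1 : ∀ j, IsAlgebraic (Nf y) (ω j E' / algebraMap L K (T ^ m)) := fun j =>
    iitw hn hy hE hE' hb hbN (hω j).1 (fun Q hQ => (hω j).2.2 Q hQ id) (pow_ne_zero m hT0) (by
      have h2 := hT.pow m
      rwa [mul_one] at h2)
  have hTK : algebraMap L K (T ^ m) ≠ 0 := (_root_.map_ne_zero _).2 (pow_ne_zero m hT0)
  refine kod_top (K := K) hE hT0 hT hind fun i => ?_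
  have h2 := (h1 i.succ).mul (h1 0).inv
  have h3 : ω i.succ E' / algebraMap L K (T ^ m) * (ω 0 E' / algebraMap L K (T ^ m))⁻¹ =
      ω i.succ G / ω 0 G := by
    rw [hval, hval] at *
    have h4 : (Matrix.of fun i l => G i (algebraMap L K (y l)) :
        Matrix (Fin n) (Fin n) K).det ^ m ≠ 0 := left_ne_zero_of_mul hG0
    have h5 : ω 0 E' ≠ 0 := right_ne_zero_of_mul hG0
    field_simp
  rw [← h3]
  exact h2

end

/-- **Images of varieties with many maps to curves.** -/
theorem gen {K : Type} [Field K] [Algebra ℂ K] [Algebra.EssFiniteType ℂ K] {k n : ℕ}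
    (hn : Algebra.trdeg ℂ K = n) (F : Fin k → IntermediateField ℂ K) [∀ i, IsFF ℂ (F i)]
    {D : ∀ i, Derivation ℂ (F i) (F i)} (hD : ∀ i, D i ≠ 0)
    {W : (Fin n → Derivation ℂ K K) → K} (hW : IsPluri 1 W) (hW0 : ∃ G, W G ≠ 0)
    (hreg : ∀ f : ∀ i, F i, (∀ i, RegD (D i) (f i)) → ∀ P : Place ℂ K, Divisorial n P →
      RegAt P (fun G => (∏ i, (f i : K)) * W G))
    (L : IntermediateField ℂ K) [FiniteDimensional L K]
    {S : Finset (Fin k)} (hS : ∀ i ∈ S, IntermediateField.adjoin L (F i : Set K) = ⊤)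
    {g0 : ∀ i, F i} (hg0 : ∀ i, RegD (D i) (g0 i)) {c : ℕ}
    (hc : 3 ≤ c) {p q : Fin k} (hpq : p ≠ q) (hp : c ≤ Module.finrank ℂ (RR (D p) (hD p)))
    (hq : c ≤ Module.finrank ℂ (RR (D q) (hD q)))
    (hγ : ∀ t : F q, Transcendental ℂ t → 3 ≤ Module.finrank ℂ⟮t⟯ (F q))
    (hpS : p ∈ S) (hqS : q ∈ S) :
    (Module.finrank L K < ∑ i ∈ S, (min (Module.finrank ℂ (RR (D i) (hD i))) c - 1) →
      ¬ GenusZero L n) ∧
    (2 * Module.finrank L K < ∑ i ∈ S, (min (Module.finrank ℂ (RR (D i) (hD i))) c - 1) →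
      ∀ h, KodGe ℂ K n (fun _ => False) h → KodGe ℂ L n (fun _ => False) h) := by
  classical
  have hK0 : CharZero K := charZero_of_injective_algebraMap (algebraMap ℂ K).injective
  have hL0 : CharZero L := charZero_of_injective_algebraMap (algebraMap ℂ L).injective
  have hessL : Algebra.EssFiniteType ℂ L := Pool.Agent.TH466.QG.ess_below (K := K)
  have hL : Algebra.trdeg ℂ L = n := Pool.Agent.Y184.NT.trdeg_below (K := K) hn
  obtain ⟨z, E, hz, hE⟩ := Pool.Agent.Y172.exists_crd (k := ℂ) (K := L) hL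
  choose E' hE' using fun i => Pool.Agent.Y172.exists_lift (k := ℂ) (K := L) (L := K) hL (E i)
  have hzK : IsTranscendenceBasis ℂ (fun j => algebraMap L K (z j)) := hz.algebraMap_comp
  have hE'd := Pool.Agent.Y172.lift_dual hE hE'
  have hpos : 0 < Module.finrank L K := Module.finrank_pos
  obtain ⟨J, hJ⟩ : ∃ J : K, J = W E' := ⟨_, rfl⟩
  have hJ0 : J ≠ 0 := by
    obtain ⟨G, hG⟩ := hW0
    have h1 := Pool.Agent.Y172.pluri_coord hzK hE'd hW G
    rw [h1] at hG
    rw [hJ]
    exact right_ne_zero_of_mul hG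
  have hpl : ∀ f : ∀ i, F i, IsPluri 1 (fun G => (∏ i, (f i : K)) * W G) := by
    intro f A G
    change (∏ i, (f i : K)) * W _ = _ * ((∏ i, (f i : K)) * W G)
    rw [hW A G]
    ring
  refine ⟨fun hr h0 => ?_, fun hr h hKod => ?_⟩
  · refine one_many hD hJ0 hg0 (fun f hf => ?_) hS hc hpq hp hq hγ hpS hqS hr
    have h1 := Pool.Agent.Y692.NT.t_Tr L K n hL h0 (fun G => (∏ i, (f i : K)) * W G)
      (hpl f) (hreg f hf) E E' hE'
    change Algebra.trace L K ((∏ i, (f i : K)) * W E') = 0 at h1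
    rwa [← hJ, mul_comm] at h1
  · obtain ⟨g, hgr, hTg⟩ : ∃ g : ∀ i, F i, (∀ i, RegD (D i) (g i)) ∧
        Algebra.trace L K (J * ∏ i, (g i : K)) ≠ 0 := by
      by_contra hcon
      push Not at hcon
      exact one_many hD hJ0 hg0 hcon hS hc hpq hp hq hγ hpS hqS (by omega)
    obtain ⟨N, hN⟩ : ∃ N : IntermediateField ℂ L, N = IntermediateField.adjoin ℂ
      {t : L | ∃ f : ∀ i, F i, (∀ i, RegD (D i) (f i)) ∧
        t = Algebra.trace L K (J * ∏ i, (f i : K)) /
        Algebra.trace L K (J * ∏ i, (g i : K))} := ⟨_, rfl⟩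
    have hNm : ∀ f : ∀ i, F i, (∀ i, RegD (D i) (f i)) →
        Algebra.trace L K (J * ∏ i, (f i : K)) /
          Algebra.trace L K (J * ∏ i, (g i : K)) ∈ N := by
      intro f hf
      rw [hN]
      exact IntermediateField.subset_adjoin _ _ ⟨f, hf, rfl⟩
    obtain ⟨l, hlS, hl⟩ := two_many hD N hJ0 hgr hTg hNm hS hc hpq hp hq hγ hpS hqS hr
    -- the traces are regular forms
    obtain ⟨T, hT⟩ : ∃ T : (∀ i, F i) → L, T = fun f => Algebra.trace L K (J * ∏ i, (f i : K)) :=
      ⟨_, rfl⟩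
    have hTreg : ∀ f : ∀ i, F i, (∀ i, RegD (D i) (f i)) → Rg z 1 (T f) := by
      intro f hf P hP
      have h1 := Pool.Agent.R882.LT.trForm_regAt hL hz hE hE' _ (hpl f) P hP fun Q e hQ =>
          hreg f hf Q (Pool.Agent.Y172.divisorial_up hQ hP)
      have h2 : pf z 1 (T f) = Pool.Agent.Y184.NT.trForm z
          (Algebra.trace L K ((∏ i, (f i : K)) * W E')) := by
        funext G
        rw [pf, Pool.Agent.Y184.NT.trForm, pow_one, hT, ← hJ, mul_comm (∏ i, (f i : K)) J]
      rw [h2]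
      exact h1
    have hT0 : T g ≠ 0 := by
      rw [hT]
      exact hTg
    have hNN : N ≤ Nf z := by
      rw [hN, IntermediateField.adjoin_le_iff]
      rintro _ ⟨f, hf, rfl⟩
      refine mem_Nf.2 ⟨1, T f, T g, hTreg f hf, hTreg g hgr, hT0, ?_⟩
      rw [hT]
    have hup : ∀ u : K, IsAlgebraic N u → IsAlgebraic (Nf z) u := by
      intro u hu
      let _ : Algebra N (Nf z) := (IntermediateField.inclusion hNN).toRingHom.toAlgebra
      have : IsScalarTower N (Nf z) K := IsScalarTower.of_algebraMap_eq fun _ => rfl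
      exact hu.extendScalars (IntermediateField.inclusion hNN).toRingHom.injective
    obtain ⟨b, hb⟩ := exists_prim (hS l hlS)
    exact kod_up hL hz hE hE' hb (hup _ (hl b)) hT0 (hTreg g hgr) hKod

end Pool.Agent.Helper11K9.KR
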