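import Pool.Agent.Helper11K9.PR.Main

/-!
Relations between products of values of regular differentials of many curves.
-/

set_option autoImplicit false
set_option linter.overlappingInstances false
set_option linter.unusedSectionVars false

open FF IntermediateField

namespace Pool.Agent.Helper11K9.KR

open Pool.Agent.W603.LV Pool.Agent.W602.RG
open Pool.Agent.Helper11K9.PC Pool.Agent.Helper11K9.MT Pool.Agent.Helper11K9.OD
  Pool.Agent.Helper11K9.PR

section

variable {k F Ω : Type} [Field k] [Field F] [Algebra k F] [CharZero k] [IsFF k F] [IsAlgClosed k]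
  [Field Ω] [Algebra k Ω] {ι : Type} [Fintype ι]

/-- the rank at arbitrarily many points -/
theorem vec_min {D : Derivation k F F} (hD : D ≠ 0) (τ : ι → F →ₐ[k] Ω)
    (hτ : Function.Injective τ) :
    min (2 * Module.finrank k (RR D hD)) (Fintype.card ι) ≤ 2 * Module.finrank Ω (vec D τ) := by
  classical
  rcases Nat.le_total (Fintype.card ι) (2 * Module.finrank k (RR D hD)) with h | h
  · exact (min_le_right _ _).trans (vec_clif hD τ hτ h)
  · obtain ⟨U, -, hU⟩ := Finset.exists_subset_card_eq (s := (Finset.univ : Finset ι))
      (n := 2 * Module.finrank k (RR D hD)) (by rwa [Finset.card_univ])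
    have h1 := vec_clif hD (fun s : U => τ s) (fun s s' hs => Subtype.ext (hτ hs)) (by
      rw [Fintype.card_coe, hU])
    rw [Fintype.card_coe, hU] at h1
    refine (min_le_left _ _).trans (h1.trans (Nat.mul_le_mul_left 2 ?_))
    let R : (ι → Ω) →ₗ[Ω] (U → Ω) := LinearMap.funLeft Ω Ω (fun s : U => (s : ι))
    have h2 : vec D (fun s : U => τ s) ≤ (vec D τ).map R := by
      rw [vec, Submodule.span_le]
      rintro _ ⟨f, hf, rfl⟩
      exact ⟨fun s => τ s f, Submodule.subset_span ⟨f, hf, rfl⟩, rfl⟩
    exact (Submodule.finrank_mono h2).trans (Submodule.finrank_map_le R (vec D τ))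

end

/-- a vector with many zeros -/
theorem exists_zeros {Ω ι : Type} [Field Ω] [Fintype ι] (V : Submodule Ω (ι → Ω)) {m : ℕ}
    (hm : m < Module.finrank Ω V) :
    ∃ x ∈ V, (∃ s, x s ≠ 0) ∧ ∀ (_ : Fintype {s // x s ≠ 0}),
      Fintype.card {s // x s ≠ 0} + m ≤ Fintype.card ι := by
  classical
  have h0 : Module.finrank Ω V ≤ Fintype.card ι := by
    have h1 := Submodule.finrank_le V
    rwa [Module.finrank_fintype_fun_eq_card] at h1
  obtain ⟨B, -, hB⟩ := Finset.exists_subset_card_eq (s := (Finset.univ : Finset ι))
    (n := m) (by rw [Finset.card_univ]; omega)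
  let R : V →ₗ[Ω] (B → Ω) := (LinearMap.funLeft Ω Ω (fun s : B => (s : ι))).comp V.subtype
  have h1 : ¬ Function.Injective R := by
    intro h
    have h2 := LinearMap.finrank_le_finrank_of_injective h
    rw [Module.finrank_fintype_fun_eq_card, Fintype.card_coe, hB] at h2
    omega
  rw [← LinearMap.ker_eq_bot, Submodule.eq_bot_iff] at h1
  push Not at h1
  obtain ⟨x, hx, hx0⟩ := h1
  refine ⟨x, x.2, ?_, fun _ => ?_⟩
  · by_contra hcon
    push Not at hcon
    exact hx0 (Subtype.ext (funext hcon))
  · have h2 : ∀ s ∈ B, (x : ι → Ω) s = 0 := fun s hs => congrFun (LinearMap.mem_ker.1 hx) ⟨s, hs⟩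
    have h3 : Fintype.card {s // (x : ι → Ω) s ≠ 0} =
        (Finset.univ.filter fun s => (x : ι → Ω) s ≠ 0).card := by
      rw [← Fintype.card_subtype]
    rw [h3, ← hB, ← Finset.card_union_of_disjoint]
    · exact Finset.card_le_univ _
    · rw [Finset.disjoint_left]
      intro s hs hs'
      exact (Finset.mem_filter.1 hs).2 (h2 s hs')

section

variable {k Ω α : Type} [Field k] [CharZero k] [IsAlgClosed k] [Field Ω] [Algebra k Ω]
  [DecidableEq α] {F : α → Type} [∀ i, Field (F i)] [∀ i, Algebra k (F i)] [∀ i, IsFF k (F i)]
  {D : ∀ i, Derivation k (F i) (F i)}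

/-- **No relation.** There is no relation between the products of the values of regular
differentials at few points. -/
theorem no_rel (hD : ∀ i, D i ≠ 0) {g0 : ∀ i, F i} (hg0 : ∀ i, RegD (D i) (g0 i)) {c : ℕ}
    (hc : 3 ≤ c) {p q : α} (hpq : p ≠ q) (hp : c ≤ Module.finrank k (RR (D p) (hD p)))
    (hq : c ≤ Module.finrank k (RR (D q) (hD q)))
    (hγ : ∀ t : F q, Transcendental k t → 3 ≤ Module.finrank k⟮t⟯ (F q)) (S : Finset α) :
    p ∉ S → q ∉ S → ∀ (ι : Type) [Fintype ι] [Nonempty ι] (τ : ∀ i, ι → F i →ₐ[k] Ω)
      (_ : ∀ i ∈ insert p (insert q S), Function.Injective (τ i)) (C : ι → Ω)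
      (_ : ∀ s, C s ≠ 0)
      (_ : ∀ f : ∀ i, F i, (∀ i, RegD (D i) (f i)) →
        ∑ s, C s * ∏ i ∈ insert p (insert q S), τ i s (f i) = 0),
      Fintype.card ι + 3 ≤ 2 * c +
        ∑ i ∈ S, (min (Module.finrank k (RR (D i) (hD i))) c - 1) → False := by
  classical
  induction S using Finset.induction_on with
  | empty =>
    intro _ _ ι _ _ τ hτ C hC hR hcard
    rw [Finset.sum_empty] at hcard
    have hpos : 0 < Fintype.card ι := Fintype.card_pos
    have h1 := vec_orth (D₁ := D p) (D₂ := D q) (τ₁ := τ p) (τ₂ := τ q) (C := C) hC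
      (fun f₁ f₂ h₁ h₂ => by
        have h2 := hR (Function.update (Function.update g0 p f₁) q f₂) fun l => by
          by_cases hlq : l = q
          · subst hlq
            rw [Function.update_self]
            exact h₂
          · rw [Function.update_of_ne hlq]
            by_cases hlp : l = p
            · subst hlp
              rw [Function.update_self]
              exact h₁
            · rw [Function.update_of_ne hlp]
              exact hg0 l
        rw [← h2]
        refine Finset.sum_congr rfl fun s _ => ?_
        rw [Finset.prod_insert (by simpa using hpq), Finset.prod_insert (by simp),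
          Finset.prod_empty, mul_one, Function.update_of_ne hpq, Function.update_self,
          Function.update_self])
    have h2 := vec_clif (hD p) _ (hτ p (by simp)) (by omega)
    have h3 := vec_strict (hD q) _ (hτ q (by simp)) hpos hγ (by omega)
    omega
  | insert a S haS ih =>
    intro hpS hqS ι _ _ τ hτ C hC hR hcard
    rw [Finset.mem_insert, not_or] at hpS hqS
    rw [Finset.sum_insert haS] at hcard
    have hsub : ∀ i ∈ insert p (insert q S), i ∈ insert p (insert q (insert a S)) := by
      intro i hi
      simp only [Finset.mem_insert] at hi ⊢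
      tauto
    have haT : a ∉ insert p (insert q S) := by
      simp only [Finset.mem_insert, not_or]
      exact ⟨fun h => hpS.1 h.symm, fun h => hqS.1 h.symm, haS⟩
    have hins : insert p (insert q (insert a S)) = insert a (insert p (insert q S)) := by
      ext i
      simp only [Finset.mem_insert]
      tauto
    -- the relation is linear in the factor `a`
    have hlin : ∀ f : ∀ i, F i, (∀ i, RegD (D i) (f i)) → ∀ x ∈ vec (D a) (τ a),
        ∑ s, C s * (x s * ∏ i ∈ insert p (insert q S), τ i s (f i)) = 0 := by
      intro f hf x hx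
      induction hx using Submodule.span_induction with
      | mem x hx =>
        obtain ⟨u, hu, rfl⟩ := hx
        rw [← hR (Function.update f a u) fun l => by
          by_cases hl : l = a
          · subst hl
            rw [Function.update_self]
            exact hu
          · rw [Function.update_of_ne hl]
            exact hf l]
        refine Finset.sum_congr rfl fun s _ => ?_
        rw [hins, Finset.prod_insert haT, Function.update_self]
        congr 2
        refine Finset.prod_congr rfl fun i hi => ?_
        rw [Function.update_of_ne fun h => haT (by rw [← h]; exact hi)]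
      | zero => simp
      | add x y _ _ hx hy =>
        have h1 : ∀ s, C s * ((x + y) s * ∏ i ∈ insert p (insert q S), τ i s (f i)) =
            C s * (x s * ∏ i ∈ insert p (insert q S), τ i s (f i)) +
            C s * (y s * ∏ i ∈ insert p (insert q S), τ i s (f i)) := fun s => by
          rw [Pi.add_apply]
          ring
        simp only [h1]
        rw [Finset.sum_add_distrib, hx, hy, add_zero]
      | smul r x _ hx =>
        have h1 : ∀ s, C s * ((r • x) s * ∏ i ∈ insert p (insert q S), τ i s (f i)) =
            r * (C s * (x s * ∏ i ∈ insert p (insert q S), τ i s (f i))) := fun s => by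
          rw [Pi.smul_apply, smul_eq_mul]
          ring
        simp only [h1]
        rw [← Finset.mul_sum, hx, mul_zero]
    -- the number of points that are removed
    obtain ⟨m, hm, hm2⟩ : ∃ m, m < Module.finrank Ω (vec (D a) (τ a)) ∧
        Fintype.card ι + 3 ≤ m + (2 * c +
          ∑ i ∈ S, (min (Module.finrank k (RR (D i) (hD i))) c - 1)) := by
      have h1 := vec_min (hD a) _ (hτ a (by simp))
      have hpos : 0 < Fintype.card ι := Fintype.card_pos
      obtain ⟨R, hRd⟩ : ∃ R, R = ∑ i ∈ S, (min (Module.finrank k (RR (D i) (hD i))) c - 1) :=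
        ⟨_, rfl⟩
      rw [← hRd] at hcard ⊢
      have h2 : 0 < Module.finrank k (RR (D a) (hD a)) := by
        have h3 : (⟨g0 a, mem_RR.2 (Or.inr (hg0 a).2)⟩ : RR (D a) (hD a)) ≠ 0 := fun h =>
          (hg0 a).1 (congrArg Subtype.val h)
        have hfin : Module.Finite k (RR (D a) (hD a)) := finDim_LL _
        exact Module.finrank_pos_iff_exists_ne_zero.2 ⟨_, h3⟩
      by_cases h4 : Fintype.card ι + 3 ≤ 2 * c + R
      · exact ⟨0, by omega, by omega⟩
      · by_cases h5 : 2 * c - 1 ≤ Fintype.card ι
        · exact ⟨min (Module.finrank k (RR (D a) (hD a))) c - 1, by omega, by omega⟩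
        · exact ⟨1, by omega, by omega⟩
    obtain ⟨x, hxV, ⟨s0, hs0⟩, hx⟩ := exists_zeros _ hm
    have hne : Nonempty {s // x s ≠ 0} := ⟨⟨s0, hs0⟩⟩
    refine ih hpS.2 hqS.2 {s // x s ≠ 0} (fun i s => τ i s.1)
      (fun i hi s s' hss => Subtype.ext (hτ i (hsub i hi) hss)) (fun s => C s.1 * x s.1)
      (fun s => mul_ne_zero (hC _) s.2) (fun f hf => ?_) ?_
    · have h1 := hlin f hf x hxV
      rw [← Finset.sum_subset (Finset.subset_univ (Finset.univ.filter fun s => x s ≠ 0))
        (fun s _ hs => by
          have h2 : x s = 0 := by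
            by_contra h
            exact hs (Finset.mem_filter.2 ⟨Finset.mem_univ _, h⟩)
          rw [h2, zero_mul, mul_zero])] at h1
      refine Eq.trans ?_ h1
      rw [Finset.sum_subtype (p := fun s => x s ≠ 0) (Finset.univ.filter fun s => x s ≠ 0)
        (fun s => by simp)]
      refine Finset.sum_congr rfl fun s _ => ?_
      rw [mul_assoc]
    · have h1 := hx inferInstance
      omega

end

end Pool.Agent.Helper11K9.KR
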