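import Pool.Agent.Helper11K9.KR.Pol
import Pool.Agent.Helper11K9.PR.Str

/-!
Images of varieties with many maps to projective spaces.
-/

set_option autoImplicit false
set_option linter.overlappingInstances false
set_option linter.unusedSectionVars false

open FF IntermediateField

namespace Pool.Agent.Helper11K9.KR

open Pool.Agent.W603.LV Pool.Agent.W602.RG
open Pool.Agent.W602.GT (Divisorial RegAt IsPluri KodGe LogSec)
open Pool.Agent.R882.Over (GenusZero)
open Pool.Agent.Helper11K9.PR

section

variable {K : Type} [Field K] [Algebra ℂ K] {k n : ℕ} {a : Fin k → ℕ} (t : ∀ i, Fin (a i) → K)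
  (m : Fin k → ℕ) (W : (Fin n → Derivation ℂ K K) → K)

/-- the forms `u x W` are regular for all monomials `u` of multidegree at most `m - s` -/
def Good (s : Fin k → ℕ) (x : K) : Prop :=
  ∀ e : (i : Fin k) → Fin (a i) → ℕ, (∀ i, ∑ j, e i j + s i ≤ m i) →
    ∀ P : Place ℂ K, Divisorial n P → RegAt P (fun G => (∏ i, ∏ j, t i j ^ e i j) * (x * W G))

variable {t m W}

theorem Good.step {s : Fin k → ℕ} {x : K} (h : Good t m W s x) {i : Fin k} {b : K}
    (hb : b ∈ Submodule.span ℂ (Set.range (t i))) :
    Good t m W (s + Pi.single i 1) (b * x) := by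
  classical
  intro e he P hP G hG
  change Ge P 0 ((∏ i, ∏ j, t i j ^ e i j) * (b * x * W G))
  induction hb using Submodule.span_induction with
  | mem b hb =>
    obtain ⟨j, rfl⟩ := hb
    have h1 := h (Function.update e i (Function.update (e i) j (e i j + 1))) (fun l => by
      have h2 := he l
      rw [Pi.add_apply] at h2
      by_cases hl : l = i
      · subst hl
        rw [Pi.single_eq_same] at h2
        rw [Function.update_self, ← Finset.add_sum_erase _ _ (Finset.mem_univ j),
          Function.update_self]
        rw [← Finset.add_sum_erase _ _ (Finset.mem_univ j)] at h2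
        have h3 : ∑ x ∈ Finset.univ.erase j, Function.update (e l) j (e l j + 1) x =
            ∑ x ∈ Finset.univ.erase j, e l x :=
          Finset.sum_congr rfl fun x hx => by
            rw [Function.update_of_ne (Finset.ne_of_mem_erase hx)]
        omega
      · rw [Pi.single_eq_of_ne hl] at h2
        rw [Function.update_of_ne hl]
        omega) P hP G hG
    change Ge P 0 ((∏ i, ∏ j, t i j ^ _) * (x * W G)) at h1
    have h4 : (∏ i, ∏ j, t i j ^ e i j) * (t i j * x * W G) =
        (∏ l, ∏ l', t l l' ^ Function.update e i (Function.update (e i) j (e i j + 1)) l l') *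
          (x * W G) := by
      rw [← Finset.mul_prod_erase _ _ (Finset.mem_univ i),
        ← Finset.mul_prod_erase _ (fun l => ∏ l', t l l' ^
          Function.update e i (Function.update (e i) j (e i j + 1)) l l') (Finset.mem_univ i),
        Function.update_self, ← Finset.mul_prod_erase _ _ (Finset.mem_univ j),
        ← Finset.mul_prod_erase _ (fun l' => t i l' ^
          Function.update (e i) j (e i j + 1) l') (Finset.mem_univ j), Function.update_self]
      have h5 : ∏ l' ∈ Finset.univ.erase j, t i l' ^ Function.update (e i) j (e i j + 1) l' =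
          ∏ l' ∈ Finset.univ.erase j, t i l' ^ e i l' :=
        Finset.prod_congr rfl fun l' hl' => by
          rw [Function.update_of_ne (Finset.ne_of_mem_erase hl')]
      have h6 : ∏ l ∈ Finset.univ.erase i, ∏ l', t l l' ^
          Function.update e i (Function.update (e i) j (e i j + 1)) l l' =
          ∏ l ∈ Finset.univ.erase i, ∏ l', t l l' ^ e l l' :=
        Finset.prod_congr rfl fun l hl => by
          rw [Function.update_of_ne (Finset.ne_of_mem_erase hl)]
      rw [h5, h6, pow_succ]
      ring
    rw [h4]
    exact h1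
  | zero =>
    rw [zero_mul, zero_mul, mul_zero]
    exact Ge.zero
  | add b b' _ _ hb hb' =>
    have h1 : (∏ i, ∏ j, t i j ^ e i j) * ((b + b') * x * W G) =
        (∏ i, ∏ j, t i j ^ e i j) * (b * x * W G) +
        (∏ i, ∏ j, t i j ^ e i j) * (b' * x * W G) := by ring
    rw [h1]
    exact hb.add hb'
  | smul c b _ hb =>
    have h1 : (∏ i, ∏ j, t i j ^ e i j) * (c • b * x * W G) =
        algebraMap ℂ K c * ((∏ i, ∏ j, t i j ^ e i j) * (b * x * W G)) := by
      rw [Algebra.smul_def]
      ring
    rw [h1]
    have h2 := (Ge.const (P := P) c).mul hb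
    rwa [zero_add] at h2

theorem Good.pow {s : Fin k → ℕ} {x : K} (h : Good t m W s x) {i : Fin k} {b : K}
    (hb : b ∈ Submodule.span ℂ (Set.range (t i))) (e : ℕ) :
    Good t m W (s + Pi.single i e) (b ^ e * x) := by
  induction e with
  | zero =>
    rw [Pi.single_zero, add_zero, pow_zero, one_mul]
    exact h
  | succ e ih =>
    have h1 := ih.step hb
    rw [add_assoc, ← Pi.single_add, ← mul_assoc, ← pow_succ'] at h1
    exact h1

theorem good_prod {b : Fin k → K} (hb : ∀ i, b i ∈ Submodule.span ℂ (Set.range (t i)))
    (h : Good t m W 0 1) (e : Fin k → ℕ) (S : Finset (Fin k)) :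
    Good t m W (∑ i ∈ S, Pi.single i (e i)) (∏ i ∈ S, b i ^ e i) := by
  classical
  induction S using Finset.induction_on with
  | empty =>
    rw [Finset.sum_empty, Finset.prod_empty]
    exact h
  | insert i S hi ih =>
    rw [Finset.sum_insert hi, Finset.prod_insert hi, add_comm]
    exact ih.pow (hb i) (e i)

end

/-- **Images of varieties with many maps to projective spaces.** -/
theorem gen_multi {K : Type} [Field K] [Algebra ℂ K] [Algebra.EssFiniteType ℂ K] {k n : ℕ}
    (hn : Algebra.trdeg ℂ K = n) {a : Fin k → ℕ} {t : ∀ i, Fin (a i) → K} {m : Fin k → ℕ}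
    {W : (Fin n → Derivation ℂ K K) → K} (hW : IsPluri 1 W) (hW0 : ∃ G, W G ≠ 0)
    (hreg : ∀ e : (i : Fin k) → Fin (a i) → ℕ, (∀ i, ∑ j, e i j ≤ m i) →
      ∀ P : Place ℂ K, Divisorial n P → RegAt P (fun G => (∏ i, ∏ j, t i j ^ e i j) * W G))
    (L : IntermediateField ℂ K) [FiniteDimensional L K]
    (ht : ∀ i, IntermediateField.adjoin L (Set.range (t i)) = ⊤) :
    (Module.finrank L K ≤ ∑ i, m i + 1 → ¬ GenusZero L n) ∧
    (2 * Module.finrank L K ≤ ∑ i, m i + 1 →
      ∀ h, KodGe ℂ K n (fun _ => False) h → KodGe ℂ L n (fun _ => False) h) := by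
  classical
  have hb : ∀ i, ∃ b ∈ Submodule.span ℂ (Set.range (t i)),
      IntermediateField.adjoin L {b} = ⊤ := by
    intro i
    obtain ⟨b, hb, hb'⟩ := exists_prim' (L := L) (Submodule.span ℂ (Set.range (t i))) (by
      rw [eq_top_iff, ← ht i, IntermediateField.adjoin_le_iff]
      exact Submodule.subset_span.trans (IntermediateField.subset_adjoin L _))
    exact ⟨b, hb, hb'⟩
  choose b hb hb' using hb
  refine gen_pol hn (t := b) (m := m) hW hW0 (fun e he P hP => ?_) L hb'
  have h0 : Good t m W 0 1 := by
    intro e he P hP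
    have h1 := hreg e (fun i => by
      have h2 := he i
      rw [Pi.zero_apply, add_zero] at h2
      exact h2) P hP
    simpa only [one_mul] using h1
  have h1 := good_prod hb h0 e Finset.univ (fun _ _ => 0) (fun i => by
    rw [Finset.sum_const_zero, zero_add, Finset.sum_apply]
    rw [Finset.sum_eq_single i (fun j _ hj => Pi.single_eq_of_ne hj.symm _)
      (fun h => absurd (Finset.mem_univ i) h), Pi.single_eq_same]
    exact he i) P hP
  simpa only [pow_zero, Finset.prod_const_one, one_mul] using h1

end Pool.Agent.Helper11K9.KR
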