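import Pool.Agent.Helper11K9.KR.Gen
import Pool.Agent.Helper11K9.PR.Res

/-!
Images of products of many curves.
-/

set_option autoImplicit false
set_option linter.overlappingInstances false
set_option linter.unusedSectionVars false

open FF IntermediateField

namespace Pool.Agent.Helper11K9.KR

open Pool.Agent.W603.LV Pool.Agent.W602.RG
open Pool.Agent.W602.GT (Divisorial RegAt IsPluri KodGe LogSec)
open Pool.Agent.W619.PQ (extForm IsUniruled)
open Pool.Agent.R882.Over (GenusZero)
open Pool.Agent.Helper11K9.PC Pool.Agent.Helper11K9.MT Pool.Agent.Helper11K9.OD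
  Pool.Agent.Helper11K9.PR

/-- products of curves of genus at least two are of general type -/
theorem kod_prod {K : Type} [Field K] [Algebra ℂ K] {n : ℕ} (F : Fin n → IntermediateField ℂ K)
    [∀ i, IsFF ℂ (F i)] (hsup : ⨆ i, F i = ⊤) (hn : Algebra.trdeg ℂ K = n)
    {D : ∀ i, Derivation ℂ (F i) (F i)} (hD : ∀ i, D i ≠ 0) {x : ∀ i, F i}
    (hx : ∀ i, Transcendental ℂ (x i)) {f1 f0 : ∀ i, F i} (hf1 : ∀ i, RegD (D i) (f1 i))
    (hf0 : ∀ i, RegD (D i) (f0 i)) (htr : ∀ i, Transcendental ℂ (f1 i / f0 i)) :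
    KodGe ℂ K n (fun _ => False) n := by
  classical
  have hK0 : CharZero K := charZero_of_injective_algebraMap (algebraMap ℂ K).injective
  have hxb : IsTranscendenceBasis ℂ fun i => algebraMap (F i) K (x i) :=
    Pool.Agent.W619.PQ.basis_of_iSup F hsup hn x hx
  have hrb : IsTranscendenceBasis ℂ fun i => algebraMap (F i) K (f1 i / f0 i) :=
    Pool.Agent.W619.PQ.basis_of_iSup F hsup hn (fun i => f1 i / f0 i) htr
  obtain ⟨G, hG⟩ := Pool.Agent.W619.PQ.extForm_ne (K := K) 1 D x (fun _ => 1)
    (fun i => one_ne_zero) (fun i => der_ne_zero (hD i) (hx i)) hxb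
  let ff : Fin (n + 1) → ∀ i, F i := Fin.cons f0 fun i => Function.update f0 i (f1 i)
  have hff : ∀ j i, RegD (D i) (ff j i) := by
    intro j
    refine Fin.cases ?_ (fun j => ?_) j
    · exact hf0
    · intro i
      change RegD (D i) (Function.update f0 j (f1 j) i)
      by_cases hi : i = j
      · subst hi
        rw [Function.update_self]
        exact hf1 i
      · rw [Function.update_of_ne hi]
        exact hf0 i
  have hne : ∀ i, (f0 i : K) ≠ 0 := fun i h => (hf0 i).1 (Subtype.ext h)
  refine kod_of_forms (fun j => extForm 1 D x (ff j))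
    (fun j => Pool.Agent.W619.PQ.extForm_pluri 1 D x _) (fun j P hP => ext_reg hD hx (hff j) P hP)
    (D := G) ?_ ?_
  · change extForm 1 D x f0 G ≠ 0
    rw [ext_val]
    exact mul_ne_zero hG (Finset.prod_ne_zero_iff.2 fun i _ => hne i)
  · have h1 : (fun i : Fin n => extForm 1 D x (ff i.succ) G / extForm 1 D x (ff 0) G) =
        fun i => algebraMap (F i) K (f1 i / f0 i) := by
      funext i
      change extForm 1 D x (Function.update f0 i (f1 i)) G / extForm 1 D x f0 G = _
      rw [ext_val (Function.update f0 i (f1 i)) G, ext_val f0 G,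
        ← Finset.mul_prod_erase _ _ (Finset.mem_univ i),
        ← Finset.mul_prod_erase _ (fun i => (f0 i : K)) (Finset.mem_univ i),
        Function.update_self]
      have h3 : ∏ l ∈ Finset.univ.erase i, ((Function.update f0 i (f1 i) l : F l) : K) =
          ∏ l ∈ Finset.univ.erase i, (f0 l : K) :=
        Finset.prod_congr rfl fun l hl => by
          rw [Function.update_of_ne (Finset.ne_of_mem_erase hl)]
      have h4 : ∏ l ∈ Finset.univ.erase i, (f0 l : K) ≠ 0 :=
        Finset.prod_ne_zero_iff.2 fun i _ => hne i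
      have h5 : algebraMap (F i) K (f1 i / f0 i) = (f1 i : K) / (f0 i : K) := rfl
      rw [h3, h5]
      have h6 := hne i
      field_simp
    rw [h1]
    exact hrb.1

/-- **Images of products of many curves.** -/
theorem prod {K : Type} [Field K] [Algebra ℂ K] {n : ℕ} (F : Fin n → IntermediateField ℂ K)
    [∀ i, IsFF ℂ (F i)] (hsup : ⨆ i, F i = ⊤) (hn : Algebra.trdeg ℂ K = n)
    (L : IntermediateField ℂ K) [FiniteDimensional L K]
    (hH : ∀ i, F i ≤ L ∨ IntermediateField.adjoin L (F i : Set K) = ⊤)
    (hg2 : ∀ i, 2 ≤ Module.finrank ℂ (regularForms (F i))) {S : Finset (Fin n)}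
    (hS : ∀ i, i ∈ S ↔ ¬ F i ≤ L)
    (hmany : S.card ≤ 1 ∨ ∃ (c : ℕ) (p q : Fin n), 3 ≤ c ∧ p ≠ q ∧ p ∈ S ∧ q ∈ S ∧
      c ≤ Module.finrank ℂ (regularForms (F p)) ∧ c ≤ Module.finrank ℂ (regularForms (F q)) ∧
      (∀ t : F q, Transcendental ℂ t → 3 ≤ Module.finrank ℂ⟮t⟯ (F q)) ∧
      2 * Module.finrank L K <
        ∑ i ∈ S, (min (Module.finrank ℂ (regularForms (F i))) c - 1)) :
    KodGe ℂ L n (fun _ => False) n ∨ (CoveredLow L n ∧ ∃ p, ∀ j, j ≠ p → F j ≤ L) := by
  classical
  have hK0 : CharZero K := charZero_of_injective_algebraMap (algebraMap ℂ K).injective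
  have hL0 : CharZero L := charZero_of_injective_algebraMap (algebraMap ℂ L).injective
  have hessK : Algebra.EssFiniteType ℂ K := ess_top F hsup
  have hessL : Algebra.EssFiniteType ℂ L := Pool.Agent.TH466.QG.ess_below (K := K)
  have hL : Algebra.trdeg ℂ L = n := Pool.Agent.Y184.NT.trdeg_below (K := K) hn
  obtain ⟨D, hDe⟩ : ∃ D : ∀ i, Derivation ℂ (F i) (F i), D = fun i => der ℂ (F i) := ⟨_, rfl⟩
  have hD : ∀ i, D i ≠ 0 := by
    intro i
    rw [hDe]
    exact der_ne
  have hfl : ∀ i, Module.finrank ℂ (regularForms (F i)) ≤ Module.finrank ℂ (RR (D i) (hD i)) :=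
    fun i => forms_le (hD i)
  have hpos : 0 < Module.finrank L K := Module.finrank_pos
  choose f1 f0 hf1 hf0 htr using fun i =>
    exists_ratio (hD i) ((hg2 i).trans (hfl i))
  choose x hx using fun i => IsFF.exists_transcendental (k := ℂ) (K := F i)
  have hxb : IsTranscendenceBasis ℂ fun i => algebraMap (F i) K (x i) :=
    Pool.Agent.W619.PQ.basis_of_iSup F hsup hn x hx
  have hkodK := kod_prod F hsup hn hD hx hf1 hf0 htr
  rcases hmany with hcard | ⟨c, p, q, hc, hpq, hp, hq, hgp, hgq, hγ, hr⟩
  swap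
  · left
    obtain ⟨W, hWd⟩ : ∃ W : (Fin n → Derivation ℂ K K) → K, W = extForm 1 D x (fun _ => 1) :=
      ⟨_, rfl⟩
    have hW : IsPluri 1 W := by
      rw [hWd]
      exact Pool.Agent.W619.PQ.extForm_pluri 1 D x (fun _ => 1)
    have hW0 : ∃ G, W G ≠ 0 := by
      rw [hWd]
      exact Pool.Agent.W619.PQ.extForm_ne (K := K) 1 D x (fun _ => 1)
        (fun i => one_ne_zero) (fun i => der_ne_zero (hD i) (hx i)) hxb
    refine (gen hn F hD hW hW0 (fun f hf P hP => ?_) L (S := S)
      (fun i hi => (hH i).resolve_left ((hS i).1 hi)) hf0 hc hpq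
      (hgp.trans (hfl p)) (hgq.trans (hfl q)) hγ hp hq).2 ?_ n hkodK
    · have h1 := ext_reg hD hx hf P hP
      have h2 : extForm 1 D x f = fun G => (∏ i, (f i : K)) * W G := by
        funext G
        rw [ext_val, mul_comm, hWd]
      rw [h2] at h1
      exact h1
    · refine hr.trans_le (Finset.sum_le_sum fun i _ => ?_)
      have := hfl i
      omega
  -- at most one curve does not descend
  obtain ⟨z, E, hz, hE⟩ := Pool.Agent.Y172.exists_crd (k := ℂ) (K := L) hL
  choose E' hE' using fun i => Pool.Agent.Y172.exists_lift (k := ℂ) (K := L) (L := K) hL (E i)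
  have hzK : IsTranscendenceBasis ℂ (fun j => algebraMap L K (z j)) := hz.algebraMap_comp
  have hE'd := Pool.Agent.Y172.lift_dual hE hE'
  obtain ⟨J, hJ⟩ : ∃ J : K, J = extForm 1 D x (fun _ => 1) E' := ⟨_, rfl⟩
  have hJ0 : J ≠ 0 := by
    obtain ⟨G, hG⟩ := Pool.Agent.W619.PQ.extForm_ne (K := K) 1 D x (fun _ => 1)
      (fun i => one_ne_zero) (fun i => der_ne_zero (hD i) (hx i)) hxb
    have h1 := Pool.Agent.Y172.pluri_coord hzK hE'd (m := 1)
      (ω := extForm 1 D x (fun _ => 1)) (Pool.Agent.W619.PQ.extForm_pluri 1 D x _) G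
    rw [h1] at hG
    rw [hJ]
    exact right_ne_zero_of_mul hG
  by_cases hne : ∃ p, ¬ F p ≤ L
  swap
  · -- all curves descend
    left
    push Not at hne
    have htop : L = ⊤ := by
      rw [eq_top_iff, ← hsup]
      exact iSup_le hne
    have hb : IntermediateField.adjoin L {(1 : K)} = ⊤ := by
      rw [eq_top_iff]
      intro u _
      have hu : u ∈ L := by
        rw [htop]
        trivial
      exact (IntermediateField.adjoin L {(1 : K)}).algebraMap_mem ⟨u, hu⟩
    -- the form
    have hpl := Pool.Agent.W619.PQ.extForm_pluri (K := K) 1 D x f0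
    have hTreg : Rg z 1 (Algebra.trace L K (J * ∏ i, (f0 i : K))) := by
      intro P hP
      have h1 := Pool.Agent.R882.LT.trForm_regAt hL hz hE hE' _ hpl P hP fun Q e hQ =>
          ext_reg hD hx hf0 Q (Pool.Agent.Y172.divisorial_up hQ hP)
      rw [ext_val, ← hJ] at h1
      have h2 : pf z 1 (Algebra.trace L K (J * ∏ i, (f0 i : K))) = Pool.Agent.Y184.NT.trForm z
          (Algebra.trace L K (J * ∏ i, (f0 i : K))) := by
        funext G
        rw [pf, Pool.Agent.Y184.NT.trForm, pow_one]
      rw [h2]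
      exact h1
    have hT0 : Algebra.trace L K (J * ∏ i, (f0 i : K)) ≠ 0 := by
      intro h1
      obtain ⟨w, hw⟩ : ∃ w : L, algebraMap L K w = J * ∏ i, (f0 i : K) :=
        ⟨⟨J * ∏ i, (f0 i : K), by rw [htop]; trivial⟩, rfl⟩
      rw [← hw, Algebra.trace_algebraMap, smul_eq_zero] at h1
      rcases h1 with h1 | h1
      · omega
      · rw [h1, map_zero] at hw
        refine mul_ne_zero hJ0 (Finset.prod_ne_zero_iff.2 fun i _ h => ?_) hw.symm
        exact (hf0 i).1 (Subtype.ext h)
    exact kod_up hL hz hE hE' hb isAlgebraic_one hT0 hTreg hkodK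
  obtain ⟨p, hp⟩ := hne
  have hall : ∀ j, j ≠ p → F j ≤ L := by
    intro j hj
    by_contra hcon
    have h1 : ({j, p} : Finset (Fin n)) ⊆ S := by
      intro i hi
      rw [Finset.mem_insert, Finset.mem_singleton] at hi
      rcases hi with rfl | rfl
      · exact (hS _).2 hcon
      · exact (hS _).2 hp
    have h2 := Finset.card_le_card h1
    rw [Finset.card_pair hj] at h2
    omega
  by_cases hTex : ∃ g : ∀ i, F i, (∀ i, RegD (D i) (g i)) ∧
      Algebra.trace L K (J * ∏ i, (g i : K)) ≠ 0
  swap
  · -- all traces vanish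
    push Not at hTex
    right
    have huni : IsUniruled ℂ L n := by
      refine uni_of_line F hsup hn L hD hx hz hE hE' hJ p L le_rfl inferInstance hall
        (fun j _ => hf0 j) ?_
      intro f hf
      have h1 := hTex (Function.update f0 p (f p)) fun j => by
        by_cases hj : j = p
        · subst hj
          rw [Function.update_self]
          exact hf j (Finset.mem_singleton_self j)
        · rw [Function.update_of_ne hj]
          exact hf0 j
      obtain ⟨ε, hε⟩ : ∃ ε : L, algebraMap L K ε = ∏ l ∈ Finset.univ.erase p, (f0 l : K) :=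
        ⟨⟨∏ l ∈ Finset.univ.erase p, (f0 l : K), prod_mem fun l hl =>
          (hall l (Finset.ne_of_mem_erase hl)) (f0 l).2⟩, rfl⟩
      have hε0 : ε ≠ 0 := by
        intro h
        rw [h, map_zero] at hε
        refine Finset.prod_ne_zero_iff.2 (fun i _ h => ?_) hε.symm
        exact (hf0 i).1 (Subtype.ext h)
      have h2 : J * ∏ i, ((Function.update f0 p (f p) i : F i) : K) =
          ε • (J * (f p : K)) := by
        rw [← Finset.mul_prod_erase _ _ (Finset.mem_univ p), Function.update_self]
        have h3 : ∏ l ∈ Finset.univ.erase p, ((Function.update f0 p (f p) l : F l) : K) =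
            ∏ l ∈ Finset.univ.erase p, (f0 l : K) :=
          Finset.prod_congr rfl fun l hl => by
            rw [Function.update_of_ne (Finset.ne_of_mem_erase hl)]
        rw [h3, ← hε, Algebra.smul_def]
        ring
      rw [h2, map_smul, smul_eq_zero] at h1
      rw [Finset.prod_singleton]
      exact h1.resolve_left hε0
    exact ⟨covered_of_uniruled huni, p, hall⟩
  · obtain ⟨g, hgr, hTg⟩ := hTex
    obtain ⟨N, hN⟩ : ∃ N : IntermediateField ℂ L, N = IntermediateField.adjoin ℂ
      {t : L | ∃ f : ∀ i, F i, (∀ i, RegD (D i) (f i)) ∧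
        t = Algebra.trace L K (J * ∏ i, (f i : K)) /
        Algebra.trace L K (J * ∏ i, (g i : K))} := ⟨_, rfl⟩
    have hNm : ∀ f : ∀ i, F i, (∀ i, RegD (D i) (f i)) →
        Algebra.trace L K (J * ∏ i, (f i : K)) /
          Algebra.trace L K (J * ∏ i, (g i : K)) ∈ N := by
      intro f hf
      rw [hN]
      exact IntermediateField.subset_adjoin _ _ ⟨f, hf, rfl⟩
    obtain ⟨T, hT⟩ : ∃ T : (∀ i, F i) → L, T = fun f => Algebra.trace L K (J * ∏ i, (f i : K)) :=
      ⟨_, rfl⟩
    have hTreg : ∀ f : ∀ i, F i, (∀ i, RegD (D i) (f i)) → Rg z 1 (T f) := by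
      intro f hf P hP
      have h1 := Pool.Agent.R882.LT.trForm_regAt hL hz hE hE' _
        (Pool.Agent.W619.PQ.extForm_pluri 1 D x f) P hP fun Q e hQ =>
          ext_reg hD hx hf Q (Pool.Agent.Y172.divisorial_up hQ hP)
      rw [ext_val, ← hJ] at h1
      have h2 : pf z 1 (T f) = Pool.Agent.Y184.NT.trForm z
          (Algebra.trace L K (J * ∏ i, (f i : K))) := by
        funext G
        rw [pf, Pool.Agent.Y184.NT.trForm, pow_one, hT]
      rw [h2]
      exact h1
    have hT0 : T g ≠ 0 := by
      rw [hT]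
      exact hTg
    have halgL : ∀ l, F l ≤ L → ∀ u : F l, IsAlgebraic N (u : K) := by
      intro l hl u
      refine alg_factor N (htr l) ?_ u
      have hf : ∀ w : F l, RegD (D l) w → ∀ j, RegD (D j) (Function.update g l w j) := by
        intro w hw j
        by_cases hj : j = l
        · subst hj
          rw [Function.update_self]
          exact hw
        · rw [Function.update_of_ne hj]
          exact hgr j
      have h1 : ∀ w : F l, RegD (D l) w → IsAlgebraic N ((w : K) / (g l : K)) := by
        intro w hw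
        have h2 := hNm _ (hf w hw)
        obtain ⟨w', hw'⟩ : ∃ w' : L, algebraMap L K w' = (w : K) / (g l : K) :=
          ⟨⟨(w : K) / (g l : K), L.div_mem (hl w.2) (hl (g l).2)⟩, rfl⟩
        have hgl : (g l : K) ≠ 0 := fun h => (hgr l).1 (Subtype.ext h)
        have h3 : J * ∏ i, ((Function.update g l w i : F i) : K) =
            w' • (J * ∏ i, (g i : K)) := by
          rw [← Finset.mul_prod_erase _ _ (Finset.mem_univ l), Function.update_self,
            ← Finset.mul_prod_erase _ (fun i => (g i : K)) (Finset.mem_univ l)]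
          have h3 : ∏ j ∈ Finset.univ.erase l, ((Function.update g l w j : F j) : K) =
              ∏ j ∈ Finset.univ.erase l, (g j : K) :=
            Finset.prod_congr rfl fun j hj => by
              rw [Function.update_of_ne (Finset.ne_of_mem_erase hj)]
          rw [h3, Algebra.smul_def, hw']
          field_simp
        rw [h3, map_smul, smul_eq_mul, mul_div_assoc, div_self hTg, mul_one] at h2
        rw [← hw']
        exact isAlgebraic_algebraMap (A := K) (⟨w', h2⟩ : N)
      have h2 := (h1 (f1 l) (hf1 l)).mul (h1 (f0 l) (hf0 l)).inv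
      have hgl : (g l : K) ≠ 0 := fun h => (hgr l).1 (Subtype.ext h)
      have h3 : (f1 l : K) / (g l : K) * ((f0 l : K) / (g l : K))⁻¹ =
          ((f1 l / f0 l : F l) : K) := by
        have h4 : ((f1 l / f0 l : F l) : K) = (f1 l : K) / (f0 l : K) := rfl
        rw [h4]
        have hfl0 : (f0 l : K) ≠ 0 := fun h => (hf0 l).1 (Subtype.ext h)
        field_simp
      rw [← h3]
      exact h2
    have hNN : N ≤ Nf z := by
      rw [hN, IntermediateField.adjoin_le_iff]
      rintro _ ⟨f, hf, rfl⟩
      refine mem_Nf.2 ⟨1, T f, T g, hTreg f hf, hTreg g hgr, hT0, ?_⟩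
      rw [hT]
    have hup : ∀ u : K, IsAlgebraic N u → IsAlgebraic (Nf z) u := by
      intro u hu
      let _ : Algebra N (Nf z) := (IntermediateField.inclusion hNN).toRingHom.toAlgebra
      have : IsScalarTower N (Nf z) K := IsScalarTower.of_algebraMap_eq fun _ => rfl
      exact hu.extendScalars (IntermediateField.inclusion hNN).toRingHom.injective
    rcases low_or_general F hsup hn L hD hx hz hE hgr hT0 (hTreg g hgr) (p := p)
      (fun j hj u => hup _ (halgL j (hall j hj) u)) with h | h
    · exact Or.inl h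
    · exact Or.inr ⟨h, p, hall⟩

end Pool.Agent.Helper11K9.KR
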